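import Pool.Agent.Q170.MT.Bas

/-!
Independence for different primes (helper file).
-/

set_option autoImplicit false

namespace Pool.Agent.Q170.MT

open Matrix

section expo
variable {Γ : Type} [Group Γ]

/-- an exponent of a representation modulo a power of a prime -/
theorem expo {q : ℕ} (hq : q.Prime) (hq5 : 5 ≤ q) (k : ℕ) (f : Γ →* MR (ZMod (q ^ (k + 1)))) :
    ∃ M : ℕ, (∀ p : ℕ, p.Prime → q < p → ¬ p ∣ M) ∧ ∀ σ, f (σ ^ M) = 1 := by
  have : Fact q.Prime := ⟨hq⟩
  have hk : k + 1 ≠ 0 := Nat.succ_ne_zero k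
  set π : ZMod (q ^ (k + 1)) →+* ZMod q := ZMod.castHom (dvd_pow_self q hk) (ZMod q) with hπ
  set fb : Γ →* MR (ZMod q) := (π.mapMatrix (m := Fin 2)).toMonoidHom.comp f with hfb
  have hcard : Nat.card (GL (Fin 2) (ZMod q)) = (q ^ 2 - 1) * (q ^ 2 - q) := by
    rw [Matrix.card_GL_field, Fin.prod_univ_two, ZMod.card]
    simp
  refine ⟨(q ^ 2 - 1) * (q ^ 2 - q) * q ^ k, ?_, fun σ => ?_⟩
  · intro p hp hqp h
    have hq1 : q ^ 2 - 1 = (q - 1) * (q + 1) := by
      have h2 := Nat.sq_sub_sq q 1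
      rw [one_pow] at h2
      rw [h2, mul_comm]
    have hq2 : q ^ 2 - q = q * (q - 1) := by
      rw [Nat.mul_sub, mul_one, pow_two]
    rw [hq1, hq2] at h
    have n1 : ¬ p ∣ q - 1 := fun h1 => by
      have := Nat.le_of_dvd (by omega) h1
      omega
    have n2 : ¬ p ∣ q := fun h1 => by
      have := Nat.le_of_dvd (by omega) h1
      omega
    have n3 : ¬ p ∣ q + 1 := fun h1 => by
      have h2 := Nat.le_of_dvd (by omega) h1
      have h3 : p = q + 1 := by omega
      have o1 := hp.odd_of_ne_two (by omega)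
      have o2 := hq.odd_of_ne_two (by omega)
      rw [h3] at o1
      rcases o1 with ⟨a, ha⟩
      rcases o2 with ⟨b, hb⟩
      omega
    rcases (Nat.Prime.dvd_mul hp).1 h with h | h
    · rcases (Nat.Prime.dvd_mul hp).1 h with h | h
      · rcases (Nat.Prime.dvd_mul hp).1 h with h | h
        · exact n1 h
        · exact n3 h
      · rcases (Nat.Prime.dvd_mul hp).1 h with h | h
        · exact n2 h
        · exact n1 h
    · exact n2 (hp.dvd_of_dvd_pow h)
  · have h1 : fb (σ ^ ((q ^ 2 - 1) * (q ^ 2 - q))) = 1 := by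
      have h2 : (fb.toHomUnits σ) ^ Nat.card (GL (Fin 2) (ZMod q)) = 1 := pow_card_eq_one'
      rw [hcard, ← map_pow] at h2
      exact congrArg Units.val h2
    set A := f (σ ^ ((q ^ 2 - 1) * (q ^ 2 - q))) with hA
    have h3 : ((q ^ 1 : ℕ) : MR (ZMod (q ^ (k + 1)))) ∣ A - 1 - 0 := by
      rw [pow_one, sub_zero, dvd_entries]
      intro i j
      apply ker_red hk
      rw [Matrix.sub_apply, map_sub, sub_eq_zero]
      have h4 := congrFun (congrFun h1 i) j
      have h5 : fb (σ ^ ((q ^ 2 - 1) * (q ^ 2 - q))) i j = π (A i j) := rfl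
      rw [← hπ, ← h5, h4]
      by_cases hij : i = j
      · subst hij
        rw [Matrix.one_apply_eq, Matrix.one_apply_eq, map_one]
      · rw [Matrix.one_apply_ne hij, Matrix.one_apply_ne hij, map_zero]
    have h6 := powB' hq hq5 (e := (0 : MR (ZMod (q ^ (k + 1))))) (by rw [mul_zero]) h3 k
    have h0 : ((q ^ (k + 1) : ℕ) : MR (ZMod (q ^ (k + 1)))) = 0 := by
      rw [← map_natCast (algebraMap (ZMod (q ^ (k + 1))) (MR (ZMod (q ^ (k + 1))))),
        ZMod.natCast_self, map_zero]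
    rw [h0, zero_dvd_iff, mul_zero, sub_zero, sub_eq_zero] at h6
    rw [pow_mul, map_pow, ← hA, h6]

end expo

section good
variable {Γ : Type} [Group Γ] {ι : Type} [Fintype ι] [DecidableEq ι]
  {V : ι → Type} [∀ i, AddCommGroup (V i)]

/-- The action on the points killed by `n` is as large as possible. -/
structure Good (ρ : ∀ i, Γ → V i →+ V i) (n : ℕ) : Prop where
  bas : ∃ P Q : ∀ i, V i, (∀ i, Bs n (P i) (Q i)) ∧
    ∀ a b c d : ι → ℤ, (∀ i, (n : ℤ) ∣ a i * d i - b i * c i - 1) → ∃ σ ∈ CC Γ, ∀ i,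
      ρ i σ (P i) = a i • P i + c i • Q i ∧ ρ i σ (Q i) = b i • P i + d i • Q i
  expo : ∃ M : ℕ, (∀ p : ℕ, p.Prime → (∀ q : ℕ, q.Prime → q ∣ n → q < p) → ¬ p ∣ M) ∧
    ∀ σ : Γ, ∀ i, ∀ v : V i, n • v = 0 → ρ i (σ ^ M) v = v

variable (ρ : ∀ i, Γ → V i →+ V i)

omit [Fintype ι] [DecidableEq ι] in
theorem good_one : Good ρ 1 := by
  refine ⟨⟨fun _ => 0, fun _ => 0, fun i => ⟨smul_zero _, smul_zero _, ?_, ?_⟩, ?_⟩, ⟨1, ?_, ?_⟩⟩
  · intro v hv
    exact ⟨0, 0, by rw [one_smul] at hv; rw [hv, smul_zero, add_zero]⟩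
  · intro a b _
    rw [Nat.cast_one]
    exact ⟨one_dvd _, one_dvd _⟩
  · intro a b c d _
    exact ⟨1, one_mem _, fun i => ⟨by rw [map_zero, smul_zero, smul_zero, add_zero], by
      rw [map_zero, smul_zero, smul_zero, add_zero]⟩⟩
  · intro p hp _ h
    exact hp.one_lt.ne' (Nat.dvd_one.1 h)
  · intro σ i v hv
    rw [one_smul] at hv
    rw [hv, map_zero]

/-- splitting of points of coprime orders -/
theorem split_pt {W : Type} [AddCommGroup W] {m n : ℕ} (h : Nat.Coprime m n) (v : W)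
    (hv : (m * n) • v = 0) : ∃ v₁ v₂ : W, v = v₁ + v₂ ∧ m • v₁ = 0 ∧ n • v₂ = 0 := by
  obtain ⟨x, y, hxy⟩ := Nat.isCoprime_iff_coprime.2 h
  refine ⟨(y * n) • v, (x * m) • v, ?_, ?_, ?_⟩
  · rw [← add_smul, add_comm, hxy, one_smul]
  · rw [← natCast_zsmul, ← mul_smul]
    have : ((m : ℤ) * (y * n)) = y * ((m * n : ℕ) : ℤ) := by push_cast; ring
    rw [this, mul_smul, natCast_zsmul, hv, smul_zero]
  · rw [← natCast_zsmul, ← mul_smul]
    have : ((n : ℤ) * (x * m)) = x * ((m * n : ℕ) : ℤ) := by push_cast; ring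
    rw [this, mul_smul, natCast_zsmul, hv, smul_zero]

theorem bs_mul {W : Type} [AddCommGroup W] {m n : ℕ} (h : Nat.Coprime m n) {P Q P' Q' : W}
    (H : Bs m P Q) (H' : Bs n P' Q') : Bs (m * n) (P + P') (Q + Q') := by
  have hic := Nat.isCoprime_iff_coprime.2 h
  refine ⟨?_, ?_, ?_, ?_⟩
  · rw [smul_add, mul_comm, mul_smul, H.hP, smul_zero, mul_comm, mul_smul, H'.hP, smul_zero,
      add_zero]
  · rw [smul_add, mul_comm, mul_smul, H.hQ, smul_zero, mul_comm, mul_smul, H'.hQ, smul_zero,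
      add_zero]
  · intro v hv
    obtain ⟨v₁, v₂, rfl, h1, h2⟩ := split_pt h v hv
    obtain ⟨a, b, rfl⟩ := H.span v₁ h1
    obtain ⟨c, d, rfl⟩ := H'.span v₂ h2
    obtain ⟨x, y, hxy⟩ := hic
    -- `a' = a y n + c x m`
    have e1 : ∀ (a c : ℤ) (P P' : W), m • P = 0 → n • P' = 0 →
        (a * (y * n) + c * (x * m)) • (P + P') = a • P + c • P' := by
      intro a c P P' hP hP'
      have e2 : (a * (y * n) + c * (x * m)) • P = a • P := by
        have : a * (y * n) + c * (x * m) = a + ((c - a) * x) * m := by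
          linear_combination a * hxy
        rw [this, add_smul, mul_smul, natCast_zsmul, hP, smul_zero, add_zero]
      have e3 : (a * (y * n) + c * (x * m)) • P' = c • P' := by
        have : a * (y * n) + c * (x * m) = c + ((a - c) * y) * n := by
          linear_combination c * hxy
        rw [this, add_smul, mul_smul, natCast_zsmul, hP', smul_zero, add_zero]
      rw [smul_add, e2, e3]
    refine ⟨a * (y * n) + c * (x * m), b * (y * n) + d * (x * m), ?_⟩
    rw [e1 a c P P' H.hP H'.hP, e1 b d Q Q' H.hQ H'.hQ]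
    abel
  · intro a b hab
    have h1 : (a • P + b • Q) + (a • P' + b • Q') = 0 := by
      rw [← hab]
      simp only [smul_add]
      abel
    obtain ⟨x, y, hxy⟩ := hic
    have k1 : m • (a • P + b • Q) = 0 := by
      rw [smul_add, smul_comm m a, smul_comm m b, H.hP, H.hQ, smul_zero, smul_zero, add_zero]
    have k2 : n • (a • P + b • Q) = 0 := by
      have : a • P + b • Q = -(a • P' + b • Q') := eq_neg_of_add_eq_zero_left h1
      rw [this, smul_neg, smul_add, smul_comm n a, smul_comm n b, H'.hP, H'.hQ, smul_zero,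
        smul_zero, add_zero, neg_zero]
    have k3 : a • P + b • Q = 0 := by
      have : a • P + b • Q = (x * m + y * n) • (a • P + b • Q) := by rw [hxy, one_smul]
      rw [this, add_smul, mul_smul, mul_smul, natCast_zsmul, natCast_zsmul, k1, k2, smul_zero,
        smul_zero, add_zero]
    have k4 : a • P' + b • Q' = 0 := by rwa [k3, zero_add] at h1
    obtain ⟨h2, h3⟩ := H.indep a b k3
    obtain ⟨h4, h5⟩ := H'.indep a b k4
    push_cast
    have hic' : IsCoprime (m : ℤ) n := ⟨x, y, hxy⟩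
    exact ⟨hic'.mul_dvd h2 h4, hic'.mul_dvd h3 h5⟩

/-- **Products of coprime numbers.** -/
theorem good_mul (one : ∀ i v, ρ i 1 v = v) (mul : ∀ i σ τ v, ρ i (σ * τ) v = ρ i σ (ρ i τ v))
    {p : ℕ} (hp : p.Prime) (hp5 : 5 ≤ p) {k n : ℕ} (hn : ∀ q : ℕ, q.Prime → q ∣ n → q < p)
    (G : Good ρ (p ^ (k + 1))) (G' : Good ρ n) : Good ρ (p ^ (k + 1) * n) := by
  have : Fact p.Prime := ⟨hp⟩
  have hk : k + 1 ≠ 0 := Nat.succ_ne_zero k
  have hcop : Nat.Coprime (p ^ (k + 1)) n := by
    apply Nat.Coprime.pow_left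
    rw [Nat.Prime.coprime_iff_not_dvd hp]
    intro h
    exact lt_irrefl _ (hn p hp h)
  obtain ⟨P, Q, hPQ, hall⟩ := G.bas
  obtain ⟨P', Q', hPQ', hall'⟩ := G'.bas
  obtain ⟨M₁, hM₁, hM₁'⟩ := G.expo
  obtain ⟨M, hM, hM'⟩ := G'.expo
  have hpM : ¬ p ∣ M := hM p hp hn
  choose f hf using fun i => exists_rep (hPQ i) (ρ i) (one i) (mul i)
  set π : ZMod (p ^ (k + 1)) →+* ZMod p := ZMod.castHom (dvd_pow_self p hk) (ZMod p) with hπ
  have inv : ∀ i σ v, ρ i σ v = v → ρ i σ⁻¹ v = v := by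
    intro i σ v h
    calc ρ i σ⁻¹ v = ρ i σ⁻¹ (ρ i σ v) := by rw [h]
      _ = v := by rw [← mul, inv_mul_cancel, one]
  -- the elements acting trivially on the points killed by `n`
  set K : Subgroup (ι → SR (ZMod (p ^ (k + 1)))) :=
    { carrier := {x | ∃ σ ∈ CC Γ, (∀ i, f i σ = (x i).1) ∧
        ∀ i, ∀ v : V i, n • v = 0 → ρ i σ v = v}
      mul_mem' := by
        rintro a b ⟨σ, hσ, h1, h2⟩ ⟨τ, hτ, h3, h4⟩
        exact ⟨σ * τ, mul_mem hσ hτ, fun i => mul_val (f i) (h1 i) (h3 i), fun i v hv => by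
          rw [mul, h4 i v hv, h2 i v hv]⟩
      one_mem' := ⟨1, one_mem _, fun i => map_one (f i), fun i v _ => one i v⟩
      inv_mem' := by
        rintro a ⟨σ, hσ, h1, h2⟩
        exact ⟨σ⁻¹, inv_mem hσ, fun i => inv_val (f i) (h1 i), fun i v hv =>
          inv i σ v (h2 i v hv)⟩ } with hK
  -- all elements are realised modulo `p ^ (k + 1)`
  have real : ∀ x : ι → SR (ZMod (p ^ (k + 1))), ∃ σ ∈ CC Γ, ∀ i, f i σ = (x i).1 := by
    intro x
    have : NeZero (p ^ (k + 1)) := ⟨pow_ne_zero _ hp.ne_zero⟩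
    obtain ⟨σ, hσ, h1⟩ := hall (fun i => (x i 0 0).val) (fun i => (x i 0 1).val)
      (fun i => (x i 1 0).val) (fun i => (x i 1 1).val) (by
        intro i
        have hx := (x i).2
        rw [Matrix.det_fin_two] at hx
        rw [← ZMod.intCast_zmod_eq_zero_iff_dvd]
        push_cast
        rw [ZMod.natCast_zmod_val, ZMod.natCast_zmod_val, ZMod.natCast_zmod_val,
          ZMod.natCast_zmod_val]
        linear_combination hx)
    refine ⟨σ, hσ, fun i => ?_⟩
    rw [(hf i σ _ _ _ _).1 (h1 i)]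
    push_cast
    rw [ZMod.natCast_zmod_val, ZMod.natCast_zmod_val, ZMod.natCast_zmod_val,
      ZMod.natCast_zmod_val]
    ext a b
    fin_cases a <;> fin_cases b <;> rfl
  have hKT : K = ⊤ := by
    refine lift_gen π (fun x hx => ker_red hk x hx) (k := k + 1) (ZMod.natCast_self _) hp5 K
      fun x => ?_
    set g : (ι → SR (ZMod (p ^ (k + 1)))) →* (ι → SR (ZMod p)) :=
      MonoidHom.pi (fun i => (SpecialLinearGroup.map π).comp (Pi.evalMonoidHom _ i)) with hg
    have hgx : ∀ y i, g y i = SpecialLinearGroup.map π (y i) := fun _ _ => rfl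
    have hMp : ((M : ℕ) : ZMod p) ≠ 0 := by
      intro h
      exact hpM ((ZMod.natCast_eq_zero_iff _ _).1 h)
    have hT : K.map g = ⊤ := by
      refine all_of_single _ fun i h => ?_
      have hS : (K.map g).comap (MonoidHom.mulSingle (fun _ : ι => SR (ZMod p)) i) = ⊤ := by
        have key : ∀ (u : ZMod (p ^ (k + 1)) → SR (ZMod (p ^ (k + 1))))
            (u' : ZMod p → SR (ZMod p)),
            (∀ y, SpecialLinearGroup.map π (u y) = u' (π y)) →
            (∀ y (r : ℕ), u' y ^ r = u' (r * y)) → ∀ y, u' y ∈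
              (K.map g).comap (MonoidHom.mulSingle (fun _ : ι => SR (ZMod p)) i) := by
          intro u u' hu hu' y
          obtain ⟨z, hz⟩ := ZMod.castHom_surjective (dvd_pow_self p hk) (y / M)
          obtain ⟨σ, hσ, h1⟩ := real (Pi.mulSingle i (u z))
          refine ⟨(Pi.mulSingle i (u z)) ^ M, ⟨σ ^ M, pow_mem hσ _, fun j => ?_, hM' σ⟩, ?_⟩
          · rw [map_pow, h1, Pi.pow_apply, coe_pow2]
          · funext j
            rw [hgx, Pi.pow_apply]
            show _ = (Pi.mulSingle i _ : ι → SR (ZMod p)) j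
            by_cases hj : j = i
            · subst hj
              rw [Pi.mulSingle_eq_same, Pi.mulSingle_eq_same, map_pow, hu, hu', hπ, hz,
                mul_div_cancel₀ _ hMp]
            · rw [Pi.mulSingle_eq_of_ne hj, Pi.mulSingle_eq_of_ne hj, one_pow, map_one]
        exact gen_top _ (key up up (map_up π) (fun y r => up_pow y r))
          (key lo lo (map_lo π) (fun y r => lo_pow y r))
      have : h ∈ (K.map g).comap (MonoidHom.mulSingle (fun _ : ι => SR (ZMod p)) i) := by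
        rw [hS]; exact Subgroup.mem_top _
      exact this
    have h1 : g x ∈ K.map g := by rw [hT]; exact Subgroup.mem_top _
    obtain ⟨h, hh, hx⟩ := h1
    exact ⟨h, hh, fun i => congrFun hx i⟩
  refine ⟨⟨fun i => P i + P' i, fun i => Q i + Q' i, fun i => bs_mul hcop (hPQ i) (hPQ' i), ?_⟩,
    ⟨M₁ * M, ?_, ?_⟩⟩
  · intro a b c d hdet
    obtain ⟨τ, hτ, h1⟩ := hall' a b c d (fun i => dvd_trans ⟨(p ^ (k + 1) : ℕ), by
      push_cast; ring⟩ (hdet i))
    have hdet1 : ∀ i, ((a i : ZMod (p ^ (k + 1))) * d i - b i * c i) = 1 := by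
      intro i
      have h2 : ((p ^ (k + 1) : ℕ) : ℤ) ∣ a i * d i - b i * c i - 1 :=
        dvd_trans ⟨n, by push_cast; ring⟩ (hdet i)
      have h3 := (ZMod.intCast_zmod_eq_zero_iff_dvd _ _).2 h2
      push_cast at h3
      linear_combination h3
    set g : ι → SR (ZMod (p ^ (k + 1))) := fun i =>
      ⟨!![(a i : ZMod (p ^ (k + 1))), b i; c i, d i], by
        rw [Matrix.det_fin_two_of]; exact hdet1 i⟩ with hg
    set t : ι → SR (ZMod (p ^ (k + 1))) := fun i => ⟨f i τ, det_comm (f i) hτ⟩ with ht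
    have hm : t⁻¹ * g ∈ K := by rw [hKT]; exact Subgroup.mem_top _
    obtain ⟨κ, hκ, h2, h3⟩ := hm
    refine ⟨τ * κ, mul_mem hτ hκ, fun i => ?_⟩
    have h4 : f i (τ * κ) = (g i).1 := by
      have h5 := mul_val (f i) (g := t i) rfl (h2 i)
      rw [h5]
      congr 1
      show t i * ((t i)⁻¹ * g i) = g i
      rw [mul_inv_cancel_left]
    obtain ⟨h6, h7⟩ := (hf i (τ * κ) _ _ _ _).2 h4
    obtain ⟨h8, h9⟩ := h1 i
    have h10 : ρ i (τ * κ) (P' i) = ρ i τ (P' i) := by rw [mul, h3 i _ (hPQ' i).hP]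
    have h11 : ρ i (τ * κ) (Q' i) = ρ i τ (Q' i) := by rw [mul, h3 i _ (hPQ' i).hQ]
    constructor
    · rw [map_add, h6, h10, h8]
      simp only [smul_add]
      abel
    · rw [map_add, h7, h11, h9]
      simp only [smul_add]
      abel
  · intro l hl hll h
    rcases (Nat.Prime.dvd_mul hl).1 h with h1 | h1
    · exact hM₁ l hl (fun q hq hqd => hll q hq (hqd.mul_right _)) h1
    · exact hM l hl (fun q hq hqd => hll q hq (hqd.mul_left _)) h1
  · intro σ i v hv
    obtain ⟨v₁, v₂, rfl, h1, h2⟩ := split_pt hcop v hv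
    have e1 : ρ i (σ ^ (M₁ * M)) v₁ = v₁ := by
      rw [mul_comm, pow_mul]
      exact hM₁' (σ ^ M) i v₁ h1
    have e2 : ρ i (σ ^ (M₁ * M)) v₂ = v₂ := by
      rw [pow_mul]
      exact hM' (σ ^ M₁) i v₂ h2
    rw [map_add, e1, e2]

/-- **Independence for different primes.** -/
theorem good_all (one : ∀ i v, ρ i 1 v = v) (mul : ∀ i σ τ v, ρ i (σ * τ) v = ρ i σ (ρ i τ v))
    (S : Finset ℕ) : (∀ p ∈ S, p.Prime ∧ 5 ≤ p ∧ ∀ k : ℕ, Good ρ (p ^ (k + 1))) → ∀ n : ℕ, n ≠ 0 →
      (∀ q : ℕ, q.Prime → q ∣ n → q ∈ S) → Good ρ n := by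
  classical
  induction S using Finset.induction_on_max with
  | empty =>
    intro _ n hn h
    have : n = 1 := by
      by_contra hne
      obtain ⟨q, hq, hqn⟩ := Nat.exists_prime_and_dvd hne
      exact absurd (h q hq hqn) (Finset.notMem_empty q)
    rw [this]
    exact good_one ρ
  | insert p S hmax ih =>
    intro hS n hn h
    have hS' : ∀ q ∈ S, q.Prime ∧ 5 ≤ q ∧ ∀ k : ℕ, Good ρ (q ^ (k + 1)) :=
      fun q hq => hS q (Finset.mem_insert_of_mem hq)
    obtain ⟨hp, hp5, hG⟩ := hS p (Finset.mem_insert_self p S)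
    by_cases hpn : p ∣ n
    · have h1 := Nat.ordProj_mul_ordCompl_eq_self n p
      have h2 : 1 ≤ n.factorization p := hp.factorization_pos_of_dvd hn hpn
      obtain ⟨k, hk⟩ : ∃ k, n.factorization p = k + 1 := ⟨n.factorization p - 1, by omega⟩
      rw [hk] at h1
      obtain ⟨m, hm⟩ : ∃ m, m = n / p ^ (k + 1) := ⟨_, rfl⟩
      rw [← hm] at h1
      have hpm : ¬ p ∣ m := by
        rw [hm, ← hk]
        exact Nat.not_dvd_ordCompl hp hn
      have hm0 : m ≠ 0 := by
        rintro rfl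
        rw [mul_zero] at h1
        exact hn h1.symm
      have hmS : ∀ q : ℕ, q.Prime → q ∣ m → q ∈ S := by
        intro q hq hqm
        have h3 := h q hq (by rw [← h1]; exact hqm.mul_left _)
        rcases Finset.mem_insert.1 h3 with rfl | h3
        · exact absurd hqm hpm
        · exact h3
      rw [← h1]
      exact good_mul ρ one mul hp hp5 (fun q hq hqm => hmax q (hmS q hq hqm)) (hG k)
        (ih hS' m hm0 hmS)
    · refine ih hS' n hn fun q hq hqn => ?_
      rcases Finset.mem_insert.1 (h q hq hqn) with rfl | h3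
      · exact absurd hqn hpn
      · exact h3

end good

end Pool.Agent.Q170.MT
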