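import Pool.Agent.Q170.MT.Grp3

/-!
Bases of the `p^k`-torsion of an abelian group and matrices (helper file).
-/

set_option autoImplicit false

namespace Pool.Agent.Q170.MT

open Matrix

section a
variable {V : Type} [AddCommGroup V]

/-- The points `P`, `Q` are a basis of the points killed by `n`. -/
structure Bs (n : ℕ) (P Q : V) : Prop where
  hP : n • P = 0
  hQ : n • Q = 0
  span : ∀ v : V, n • v = 0 → ∃ a b : ℤ, v = a • P + b • Q
  indep : ∀ a b : ℤ, a • P + b • Q = 0 → (n : ℤ) ∣ a ∧ (n : ℤ) ∣ b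

theorem zs_eq {n : ℕ} {P : V} (hP : n • P = 0) {a b : ℤ} (h : (a : ZMod n) = (b : ZMod n)) :
    a • P = b • P := by
  rw [ZMod.intCast_eq_intCast_iff_dvd_sub] at h
  obtain ⟨c, hc⟩ := h
  have : b = a + c * n := by linear_combination hc
  rw [this, add_smul, mul_smul, natCast_zsmul, hP, smul_zero, add_zero]

theorem Bs.uniq {n : ℕ} {P Q : V} (H : Bs n P Q) (a b c d : ℤ) :
    a • P + b • Q = c • P + d • Q ↔ (a : ZMod n) = c ∧ (b : ZMod n) = d := by
  constructor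
  · intro h
    obtain ⟨h1, h2⟩ := H.indep (a - c) (b - d) (by
      rw [sub_smul, sub_smul]
      have : a • P - c • P + (b • Q - d • Q) = (a • P + b • Q) - (c • P + d • Q) := by abel
      rw [this, h, sub_self])
    constructor
    · rw [eq_comm, ZMod.intCast_eq_intCast_iff_dvd_sub]; exact h1
    · rw [eq_comm, ZMod.intCast_eq_intCast_iff_dvd_sub]; exact h2
  · rintro ⟨h1, h2⟩
    rw [zs_eq H.hP h1, zs_eq H.hQ h2]

variable {Γ : Type} [Group Γ]

/-- the matrices of an action with respect to a basis -/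
theorem exists_rep {n : ℕ} {P Q : V} (H : Bs n P Q) (ρ : Γ → V →+ V) (one : ∀ v, ρ 1 v = v)
    (mul : ∀ σ τ v, ρ (σ * τ) v = ρ σ (ρ τ v)) :
    ∃ f : Γ →* MR (ZMod n), ∀ σ, ∀ a b c d : ℤ,
      (ρ σ P = a • P + c • Q ∧ ρ σ Q = b • P + d • Q) ↔ f σ = !![(a : ZMod n), b; c, d] := by
  have e1 : ∀ σ, ∃ a c : ℤ, ρ σ P = a • P + c • Q := fun σ =>
    H.span _ (by rw [← map_nsmul, H.hP, map_zero])
  have e2 : ∀ σ, ∃ b d : ℤ, ρ σ Q = b • P + d • Q := fun σ =>
    H.span _ (by rw [← map_nsmul, H.hQ, map_zero])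
  choose A C hAC using e1
  choose B D hBD using e2
  have key : ∀ σ, ∀ a b c d : ℤ,
      (ρ σ P = a • P + c • Q ∧ ρ σ Q = b • P + d • Q) ↔
        !![(A σ : ZMod n), B σ; C σ, D σ] = !![(a : ZMod n), b; c, d] := by
    intro σ a b c d
    rw [hAC, hBD, H.uniq, H.uniq]
    constructor
    · rintro ⟨⟨h1, h2⟩, h3, h4⟩
      rw [h1, h2, h3, h4]
    · intro h
      exact ⟨⟨congrFun (congrFun h 0) 0, congrFun (congrFun h 1) 0⟩,
        congrFun (congrFun h 0) 1, congrFun (congrFun h 1) 1⟩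
  refine ⟨⟨⟨fun σ => !![(A σ : ZMod n), B σ; C σ, D σ], ?_⟩, ?_⟩, key⟩
  · rw [(key 1 1 0 0 1).1 ⟨by rw [one, one_smul, zero_smul, add_zero], by
      rw [one, one_smul, zero_smul, zero_add]⟩, Matrix.one_fin_two]
    push_cast
    rfl
  · intro σ τ
    show !![(A (σ * τ) : ZMod n), B (σ * τ); C (σ * τ), D (σ * τ)] =
      !![(A σ : ZMod n), B σ; C σ, D σ] * !![(A τ : ZMod n), B τ; C τ, D τ]
    rw [(key (σ * τ) (A σ * A τ + B σ * C τ) (A σ * B τ + B σ * D τ)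
      (C σ * A τ + D σ * C τ) (C σ * B τ + D σ * D τ)).1 ?_, Matrix.mul_fin_two]
    · push_cast
      rfl
    · rw [mul, mul, hAC τ, hBD τ, map_add, map_add, map_zsmul, map_zsmul, map_zsmul, map_zsmul,
        hAC σ, hBD σ]
      constructor
      · module
      · module

/-- passing to the points killed by a divisor -/
theorem Bs.down {m n : ℕ} (hm : m ≠ 0) {P Q : V} (H : Bs (m * n) P Q)
    (hdiv : ∀ v : V, n • v = 0 → ∃ w : V, m • w = v) :
    Bs n (m • P) (m • Q) := by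
  refine ⟨?_, ?_, ?_, ?_⟩
  · rw [← mul_smul, mul_comm, H.hP]
  · rw [← mul_smul, mul_comm, H.hQ]
  · intro v hv
    obtain ⟨w, rfl⟩ := hdiv v hv
    obtain ⟨a, b, rfl⟩ := H.span w (by rw [mul_comm, mul_smul, hv])
    exact ⟨a, b, by rw [smul_add, smul_comm m a, smul_comm m b]⟩
  · intro a b hab
    have h1 := H.indep (a * m) (b * m) (by
      rw [mul_smul, mul_smul, natCast_zsmul, natCast_zsmul]
      exact hab)
    have hm' : (m : ℤ) ≠ 0 := by exact_mod_cast hm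
    constructor
    · have h2 := h1.1
      rw [Nat.cast_mul, mul_comm a] at h2
      exact (mul_dvd_mul_iff_left hm').1 h2
    · have h2 := h1.2
      rw [Nat.cast_mul, mul_comm b] at h2
      exact (mul_dvd_mul_iff_left hm').1 h2

/-- lifting a basis -/
theorem Bs.lift {p : ℕ} {P₁ Q₁ : V} (H : Bs p P₁ Q₁) {k : ℕ} {P Q : V}
    (hP : (p ^ k) • P = P₁) (hQ : (p ^ k) • Q = Q₁) : Bs (p ^ (k + 1)) P Q := by
  induction k generalizing P Q with
  | zero =>
    rw [pow_zero, one_smul] at hP hQ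
    rw [zero_add, pow_one, hP, hQ]
    exact H
  | succ k ih =>
    have ih' := ih (P := p • P) (Q := p • Q) (by rw [← mul_smul, ← pow_succ, hP])
      (by rw [← mul_smul, ← pow_succ, hQ])
    refine ⟨?_, ?_, ?_, ?_⟩
    · rw [pow_succ, mul_smul]; exact ih'.hP
    · rw [pow_succ, mul_smul]; exact ih'.hQ
    · intro v hv
      obtain ⟨a, b, h1⟩ := ih'.span (p • v) (by rw [← mul_smul, ← pow_succ, hv])
      obtain ⟨c, d, h2⟩ := H.span (v - a • P - b • Q) (by
        rw [smul_sub, smul_sub, h1, smul_comm p a, smul_comm p b]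
        abel)
      refine ⟨a + c * (p ^ (k + 1) : ℕ), b + d * (p ^ (k + 1) : ℕ), ?_⟩
      rw [add_smul, add_smul, mul_smul, mul_smul, natCast_zsmul, natCast_zsmul, hP, hQ]
      have : v = (v - a • P - b • Q) + a • P + b • Q := by abel
      rw [this, h2]
      abel
    · intro a b hab
      obtain ⟨⟨a', ha⟩, ⟨b', hb⟩⟩ := H.indep a b (by
        rw [← hP, ← hQ, smul_comm a, smul_comm b, ← smul_add, hab, smul_zero])
      obtain ⟨h1, h2⟩ := ih'.indep a' b' (by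
        rw [← natCast_zsmul, ← natCast_zsmul, ← mul_smul, ← mul_smul, mul_comm a', mul_comm b',
          ← ha, ← hb, hab])
      rw [ha, hb, pow_succ' p (k + 1), Nat.cast_mul]
      exact ⟨mul_dvd_mul_left _ h1, mul_dvd_mul_left _ h2⟩

end a

section b
variable {p : ℕ} {Γ : Type} [Group Γ] {ι : Type} [Fintype ι] [DecidableEq ι]
  {V : ι → Type} [∀ i, AddCommGroup (V i)]

/-- **The simultaneous action on the points killed by `p ^ (k + 1)`.** -/
theorem simul (hp : p.Prime) (hp5 : 5 ≤ p) (k : ℕ) (ρ : ∀ i, Γ → V i →+ V i)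
    (one : ∀ i v, ρ i 1 v = v) (mul : ∀ i σ τ v, ρ i (σ * τ) v = ρ i σ (ρ i τ v))
    (P₁ Q₁ P Q : ∀ i, V i) (H₁ : ∀ i, Bs p (P₁ i) (Q₁ i)) (hP : ∀ i, (p ^ k) • P i = P₁ i)
    (hQ : ∀ i, (p ^ k) • Q i = Q₁ i)
    (h1 : ∀ i, ∀ a b c d : ℤ, (p : ℤ) ∣ a * d - b * c - 1 → ∃ σ : Γ,
      ρ i σ (P₁ i) = a • P₁ i + c • Q₁ i ∧ ρ i σ (Q₁ i) = b • P₁ i + d • Q₁ i)
    (h2 : ∀ i j, i ≠ j → ∃ l m, ((l = i ∧ m = j) ∨ (l = j ∧ m = i)) ∧ ∃ σ : Γ,
      (∀ v : V l, p • v = 0 → ρ l σ v = v) ∧ (∀ v : V m, p • v = 0 → ρ m (σ ^ p) v = v) ∧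
      ∃ v : V m, p • v = 0 ∧ ρ m σ v ≠ v)
    (a b c d : ι → ℤ) (hdet : ∀ i, ((p ^ (k + 1) : ℕ) : ℤ) ∣ a i * d i - b i * c i - 1) :
    ∃ σ ∈ CC Γ, ∀ i, ρ i σ (P i) = a i • P i + c i • Q i ∧ ρ i σ (Q i) = b i • P i + d i • Q i := by
  have : Fact p.Prime := ⟨hp⟩
  have HB : ∀ i, Bs (p ^ (k + 1)) (P i) (Q i) := fun i => (H₁ i).lift (hP i) (hQ i)
  choose f hf using fun i => exists_rep (HB i) (ρ i) (one i) (mul i)
  have hk : k + 1 ≠ 0 := Nat.succ_ne_zero k
  set π : ZMod (p ^ (k + 1)) →+* ZMod p := ZMod.castHom (dvd_pow_self p hk) (ZMod p) with hπ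
  -- the reductions
  have red : ∀ i σ, ∀ a b c d : ℤ,
      (ρ i σ (P₁ i) = a • P₁ i + c • Q₁ i ∧ ρ i σ (Q₁ i) = b • P₁ i + d • Q₁ i) ↔
        (f i σ).map π = !![(a : ZMod p), b; c, d] := by
    intro i σ a b c d
    obtain ⟨a', c', e1⟩ := (HB i).span (ρ i σ (P i)) (by rw [← map_nsmul, (HB i).hP, map_zero])
    obtain ⟨b', d', e2⟩ := (HB i).span (ρ i σ (Q i)) (by rw [← map_nsmul, (HB i).hQ, map_zero])
    have e3 := (hf i σ a' b' c' d').1 ⟨e1, e2⟩
    have e4 : ρ i σ (P₁ i) = a' • P₁ i + c' • Q₁ i := by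
      rw [← hP, ← hQ, map_nsmul, e1, smul_add, smul_comm _ a', smul_comm _ c']
    have e5 : ρ i σ (Q₁ i) = b' • P₁ i + d' • Q₁ i := by
      rw [← hP, ← hQ, map_nsmul, e2, smul_add, smul_comm _ b', smul_comm _ d']
    have e6 : (f i σ).map π = !![(a' : ZMod p), b'; c', d'] := by
      rw [e3]
      ext x y
      fin_cases x <;> fin_cases y <;> simp
    rw [e4, e5, e6, (H₁ i).uniq, (H₁ i).uniq]
    constructor
    · rintro ⟨⟨h1, h2⟩, h3, h4⟩
      rw [h1, h2, h3, h4]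
    · intro h
      exact ⟨⟨congrFun (congrFun h 0) 0, congrFun (congrFun h 1) 0⟩,
        congrFun (congrFun h 0) 1, congrFun (congrFun h 1) 1⟩
  have triv : ∀ i σ, (∀ v : V i, p • v = 0 → ρ i σ v = v) ↔ (f i σ).map π = 1 := by
    intro i σ
    have h3 := red i σ 1 0 0 1
    have e : !![((1 : ℤ) : ZMod p), ((0 : ℤ) : ZMod p); ((0 : ℤ) : ZMod p), ((1 : ℤ) : ZMod p)] =
        1 := by
      rw [Matrix.one_fin_two]
      push_cast
      rfl
    rw [e] at h3
    rw [← h3]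
    constructor
    · intro h
      rw [h _ (H₁ i).hP, h _ (H₁ i).hQ, one_smul, one_smul, zero_smul, zero_smul, add_zero,
        zero_add]
      exact ⟨rfl, rfl⟩
    · rintro ⟨h4, h5⟩ v hv
      rw [one_smul, zero_smul, add_zero] at h4
      rw [one_smul, zero_smul, zero_add] at h5
      obtain ⟨x, y, rfl⟩ := (H₁ i).span v hv
      rw [map_add, map_zsmul, map_zsmul, h4, h5]
  have mp : ∀ i σ n, (f i (σ ^ n)).map π = ((f i σ).map π) ^ n := by
    intro i σ n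
    rw [map_pow]
    exact map_pow (π.mapMatrix (m := Fin 2)) _ _
  have hcast : ∀ z : ℤ, ((p ^ (k + 1) : ℕ) : ℤ) ∣ z → ((z : ℤ) : ZMod (p ^ (k + 1))) = 0 :=
    fun z hz => (ZMod.intCast_zmod_eq_zero_iff_dvd z _).2 hz
  have hall := main_group π (fun x hx => ker_red hk x hx) (k := k + 1)
    (ZMod.natCast_self _) hp5 f (by
      intro i x
      have hx := x.2
      rw [Matrix.det_fin_two] at hx
      obtain ⟨σ, h3⟩ := h1 i (x 0 0).val (x 0 1).val (x 1 0).val (x 1 1).val (by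
        rw [← ZMod.intCast_zmod_eq_zero_iff_dvd]
        push_cast
        rw [ZMod.natCast_zmod_val, ZMod.natCast_zmod_val, ZMod.natCast_zmod_val,
          ZMod.natCast_zmod_val]
        linear_combination hx)
      refine ⟨σ, ?_⟩
      rw [(red i σ _ _ _ _).1 h3]
      push_cast
      rw [ZMod.natCast_zmod_val, ZMod.natCast_zmod_val, ZMod.natCast_zmod_val,
        ZMod.natCast_zmod_val]
      ext x y
      fin_cases x <;> fin_cases y <;> rfl) (by
      intro i j hij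
      obtain ⟨l, m, hlm, σ, g1, g2, v, hv, g3⟩ := h2 i j hij
      have t1 := (triv l σ).1 g1
      have t2 := (triv m (σ ^ p)).1 g2
      rw [mp] at t2
      have t3 : (f m σ).map π ≠ 1 := fun h => g3 ((triv m σ).2 h v hv)
      rcases hlm with ⟨rfl, rfl⟩ | ⟨rfl, rfl⟩
      · exact Or.inl ⟨σ, t1, t3, t2⟩
      · exact Or.inr ⟨σ, t1, t3, t2⟩)
  obtain ⟨σ, hσc, hσ⟩ := comm_all π (fun x hx => ker_red hk x hx) (ZMod.castHom_surjective _)
    (k := k + 1) (ZMod.natCast_self _) hp5 f hall (fun i => ⟨!![(a i : ZMod (p ^ (k + 1))), b i; c i, d i], by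
      rw [Matrix.det_fin_two_of]
      have h3 := hcast _ (hdet i)
      push_cast at h3
      linear_combination h3⟩)
  exact ⟨σ, hσc, fun i => (hf i σ _ _ _ _).2 (hσ i)⟩

end b

end Pool.Agent.Q170.MT
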