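import Pool.Agent.Q170.MT.Bas
import Pool.Agent.Y673.SL.Bs

/-!
Division of torsion points by powers of `p` (helper file).
-/

set_option autoImplicit false

namespace Pool.Agent.Q170.MT

section a
variable {V : Type} [AddCommGroup V] {p : ℕ}

/-- the points killed by `n` -/
def TT (V : Type) [AddCommGroup V] (n : ℕ) : AddSubgroup V where
  carrier := {v | n • v = 0}
  add_mem' := by
    intro a b ha hb
    have h1 : n • a = 0 := ha
    have h2 : n • b = 0 := hb
    show n • (a + b) = 0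
    rw [smul_add, h1, h2, add_zero]
  zero_mem' := smul_zero _
  neg_mem' := by
    intro a ha
    have h1 : n • a = 0 := ha
    show n • (-a) = 0
    rw [smul_neg, h1, neg_zero]

/-- multiplication by `p` -/
def mu (V : Type) [AddCommGroup V] (p j : ℕ) : TT V (p ^ (j + 1)) →+ TT V (p ^ j) where
  toFun v := ⟨p • v.1, by
    have h1 : p ^ (j + 1) • v.1 = 0 := v.2
    show p ^ j • (p • v.1) = 0
    rw [← mul_smul, ← pow_succ, h1]⟩
  map_zero' := Subtype.ext (smul_zero _)
  map_add' a b := Subtype.ext (smul_add _ _ _)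

theorem card_TT (hp : 0 < p) (hfin : ∀ j : ℕ, Finite (TT V (p ^ j)))
    (hlow : ∀ j : ℕ, (p ^ j) ^ 2 ≤ Nat.card (TT V (p ^ j))) (hup : Nat.card (TT V p) ≤ p ^ 2)
    (j : ℕ) : Nat.card (TT V (p ^ j)) = (p ^ j) ^ 2 ∧ Function.Surjective (mu V p j) := by
  have step : ∀ j : ℕ, Nat.card (TT V (p ^ j)) = (p ^ j) ^ 2 →
      Nat.card (TT V (p ^ (j + 1))) = (p ^ (j + 1)) ^ 2 ∧ Function.Surjective (mu V p j) := by
    intro j hj
    have := hfin j
    have := hfin (j + 1)
    have : Finite (TT V p) := by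
      have := hfin 1
      rwa [pow_one] at this
    have h1 := AddSubgroup.card_mul_index (mu V p j).ker
    rw [AddSubgroup.index_ker] at h1
    have h2 : Nat.card (mu V p j).ker ≤ p ^ 2 := by
      refine le_trans ?_ hup
      refine Nat.card_le_card_of_injective (fun v => (⟨v.1.1, congrArg Subtype.val v.2⟩ :
        TT V p)) ?_
      intro a b hab
      have hab' : a.1.1 = b.1.1 := congrArg (fun x : TT V p => x.1) hab
      exact Subtype.ext (Subtype.ext hab')
    have h3 : Nat.card (mu V p j).range ≤ Nat.card (TT V (p ^ j)) :=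
      Nat.card_le_card_of_injective _ Subtype.val_injective
    have h4 := hlow (j + 1)
    have h5 : (p ^ (j + 1)) ^ 2 = p ^ 2 * (p ^ j) ^ 2 := by ring
    have hp2 : 0 < p ^ 2 := by positivity
    have h6 : (p ^ j) ^ 2 ≤ Nat.card (mu V p j).range := by
      by_contra hcon
      push Not at hcon
      have : Nat.card (mu V p j).ker * Nat.card (mu V p j).range < p ^ 2 * (p ^ j) ^ 2 :=
        lt_of_le_of_lt (Nat.mul_le_mul_right _ h2) (Nat.mul_lt_mul_of_pos_left hcon hp2)
      rw [h1, ← h5] at this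
      omega
    refine ⟨?_, ?_⟩
    · apply le_antisymm _ h4
      rw [← h1, h5]
      exact Nat.mul_le_mul h2 (hj ▸ h3)
    · have h7 : (mu V p j).range = ⊤ := by
        apply AddSubgroup.eq_top_of_card_eq
        exact le_antisymm h3 (by rw [hj]; exact h6)
      exact AddMonoidHom.range_eq_top.1 h7
  have all : ∀ j : ℕ, Nat.card (TT V (p ^ j)) = (p ^ j) ^ 2 := by
    intro j
    induction j with
    | zero =>
      rw [pow_zero, one_pow]
      rw [Nat.card_eq_one_iff_unique]
      refine ⟨⟨fun a b => ?_⟩, ⟨0⟩⟩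
      have h1 : 1 • a.1 = 0 := a.2
      have h2 : 1 • b.1 = 0 := b.2
      rw [one_smul] at h1 h2
      exact Subtype.ext (h1.trans h2.symm)
    | succ j ih => exact (step j ih).1
  exact ⟨all j, (step j (all j)).2⟩

theorem div_pow (hsur : ∀ j, Function.Surjective (mu V p j)) (k : ℕ) (v : V) (hv : p • v = 0) :
    ∃ w : V, (p ^ k) • w = v := by
  have key : ∃ w : TT V (p ^ (k + 1)), (p ^ k) • w.1 = v := by
    induction k with
    | zero => exact ⟨⟨v, by show p ^ (0 + 1) • v = 0; rw [zero_add, pow_one, hv]⟩, by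
        rw [pow_zero, one_smul]⟩
    | succ k ih =>
      obtain ⟨w, hw⟩ := ih
      obtain ⟨u, hu⟩ := hsur (k + 1) w
      refine ⟨u, ?_⟩
      have h1 : p • u.1 = w.1 := congrArg Subtype.val hu
      rw [pow_succ, mul_smul, h1, hw]
  obtain ⟨w, hw⟩ := key
  exact ⟨w.1, hw⟩

end a

section b
open WeierstrassCurve Pool.Agent.H901R3.MS Pool.Agent.W275.FM Polynomial
  Pool.Agent.W239.FM.MUL Pool.Agent.Y673.Loc Pool.Agent.Y673.FM Pool.Agent.Y673.Loc.Mul
open Pool.Agent.Y673.SU Pool.Agent.Y673.SL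

theorem sur_pt {k : Type} [Field k] [DecidableEq k] [IsAlgClosed k] [CharZero k] {a b : k}
    (hD : Disc a b) {p : ℕ} (hp : p.Prime) (j : ℕ) : Function.Surjective (mu (Pt a b) p j) := by
  have h : ∀ n : ℕ, 1 ≤ n → Finite (TT (Pt a b) n) ∧ n ^ 2 ≤ Nat.card (TT (Pt a b) n) := by
    intro n hn
    obtain ⟨fin1, ge1⟩ := Mul.tor k a b hD n hn
    exact ⟨fin1, ge1⟩
  obtain ⟨fin1, ge1⟩ := Mul.tor k a b hD p hp.one_le
  have le1 := Pool.Agent.Y673.FM.tor_upper hD hp fin1
  exact (card_TT hp.pos (fun j => (h _ (Nat.pow_pos hp.pos)).1)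
    (fun j => (h _ (Nat.pow_pos hp.pos)).2) le1 j).2

open scoped Classical in
/-- division of points by powers of `p` -/
theorem div_pt {K : Type} [Field K] [CharZero K] {A B : K} (hD : 4 * A ^ 3 + 27 * B ^ 2 ≠ 0)
    {p : ℕ} (hp : p.Prime) (k : ℕ) (P : EP A B) (hP : p • P = 0) :
    ∃ Q : EP A B, (p ^ k) • Q = P := by
  have : CharZero (AlgebraicClosure K) :=
    charZero_of_injective_algebraMap (algebraMap K (AlgebraicClosure K)).injective
  set e := eqv A B (AlgebraicClosure K) with he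
  obtain ⟨w, hw⟩ := div_pow (sur_pt (k := AlgebraicClosure K) (disc_ca hD) hp) k (e P) (by
    rw [← map_nsmul, hP, map_zero])
  refine ⟨e.symm w, e.injective ?_⟩
  rw [map_nsmul, e.apply_symm_apply, hw]

end b

end Pool.Agent.Q170.MT
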