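import Pool.Agent.Y673.FM.Main

/-!
Elliptic curves for which the elements of `p`-power order act in the same way as for a curve with good
reduction (helper file; the proof is that of `Pool.Agent.Y673.FM.loc`).
-/

set_option autoImplicit false

namespace Pool.Agent.Q170.MT

open WeierstrassCurve Pool.Agent.H901R3.MS Pool.Agent.Y673.Loc Pool.Agent.Y673.Loc.ZV
open Pool.Agent.W275.FM Pool.Agent.W275.FMK NumberField IsDedekindDomain
open Pool.Agent.Y673.FM

open scoped Classical in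
/-- elements of `p`-power order act trivially on both curves or on neither -/
def Sim {K : Type} [Field K] (A B A₀ B₀ : K) (p : ℕ) : Prop :=
  ∀ (σ : AlgebraicClosure K ≃ₐ[K] AlgebraicClosure K) (k : ℕ),
    (∀ P : EP A B, p • P = 0 → act A B (σ ^ p ^ k) P = P) →
    (∀ P : EP A₀ B₀, p • P = 0 → act A₀ B₀ (σ ^ p ^ k) P = P) →
    ((∀ P : EP A B, p • P = 0 → act A B σ P = P) ↔
      (∀ P : EP A₀ B₀, p • P = 0 → act A₀ B₀ σ P = P))

open scoped Classical in
/-- **Local theorem.** If elements of `p`-power order act in the same way, `p ≥ 13`, and `E₀` has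
potentially good reduction at a place `v` not above `6`, then the valuation of `j(E)`, if negative,
is divisible by `p` (also for `v` above `p`).  This is the proof of `Pool.Agent.Y673.FM.loc`
(helper673) under a weaker hypothesis. -/
theorem loc2 {K : Type} [Field K] [NumberField K] (A B A₀ B₀ : K)
    (hD : 4 * A ^ 3 + 27 * B ^ 2 ≠ 0) (hD₀ : 4 * A₀ ^ 3 + 27 * B₀ ^ 2 ≠ 0) {p : ℕ} (hp : p.Prime)
    (hp13 : 13 ≤ p) (hF : Sim A B A₀ B₀ p) (v : HeightOneSpectrum (𝓞 K))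
    (hv2 : (adv K v).v 2 = 0) (hv3 : (adv K v).v 3 = 0)
    (hvp : 8 * (adv K v).v (p : K) < (p : ℤ) ^ 2 - 1) (hj : (adv K v).v (jv A B) < 0)
    (hj₀ : (adv K v).G 0 (jv A₀ B₀)) : (p : ℤ) ∣ (adv K v).v (jv A B) := by
  by_contra hpj
  set Kb := AlgebraicClosure K with hKb
  have hodd : Odd p := hp.odd_of_ne_two (by omega)
  have disc_of : ∀ A B : K, 4 * A ^ 3 + 27 * B ^ 2 ≠ 0 → Disc (ca Kb A) (ca Kb B) := by
    intro A B hD
    unfold Disc ca
    refine mul_ne_zero two_ne_zero ?_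
    have e : (4 : Kb) * (algebraMap K Kb A) ^ 3 + 27 * (algebraMap K Kb B) ^ 2 =
        algebraMap K Kb (4 * A ^ 3 + 27 * B ^ 2) := by
      simp only [map_mul, map_add, map_pow, map_ofNat]
    rw [e]
    exact (map_ne_zero _).2 hD
  obtain ⟨fin1, -⟩ := Mul.tor Kb (ca Kb A) (ca Kb B) (disc_of A B hD) p (by omega)
  obtain ⟨fin2, -⟩ := Mul.tor Kb (ca Kb A₀) (ca Kb B₀) (disc_of A₀ B₀ hD₀) p (by omega)
  -- auxiliary polynomials
  set g₁ : Polynomial K := Polynomial.X ^ 6 + Polynomial.C A * Polynomial.X ^ 2 +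
    Polynomial.C B with hg₁
  set g₂ : Polynomial K := Polynomial.X ^ 12 - Polynomial.C (4 * A₀ ^ 3 + 27 * B₀ ^ 2) with hg₂
  set g₃ : Polynomial K := Polynomial.X ^ 3 + Polynomial.C A₀ * Polynomial.X +
    Polynomial.C B₀ with hg₃
  have d₁ : g₁.natDegree = 6 := by rw [hg₁]; compute_degree!
  have d₂ : g₂.natDegree = 12 := by rw [hg₂]; compute_degree!
  have d₃ : g₃.natDegree = 3 := by rw [hg₃]; compute_degree!
  have n₁ : g₁ ≠ 0 := by intro h; rw [h, Polynomial.natDegree_zero] at d₁; omega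
  have n₂ : g₂ ≠ 0 := by intro h; rw [h, Polynomial.natDegree_zero] at d₂; omega
  have n₃ : g₃ ≠ 0 := by intro h; rw [h, Polynomial.natDegree_zero] at d₃; omega
  have finz : ∀ g : Polynomial K, g ≠ 0 → {z : Kb | Polynomial.aeval z g = 0}.Finite := by
    intro g hg
    have hg' : g.map (algebraMap K Kb) ≠ 0 :=
      (Polynomial.map_ne_zero_iff (algebraMap K Kb).injective).2 hg
    refine Set.Finite.subset (g.map (algebraMap K Kb)).roots.toFinset.finite_toSet ?_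
    intro z hz
    rw [Finset.mem_coe, Multiset.mem_toFinset, Polynomial.mem_roots hg', Polynomial.IsRoot.def,
      Polynomial.eval_map_algebraMap]
    exact hz
  have stab : ∀ (g : Polynomial K) (σ : Kb ≃ₐ[K] Kb) (z : Kb), Polynomial.aeval z g = 0 →
      Polynomial.aeval (σ z) g = 0 := by
    intro g σ z hz
    have e : Polynomial.aeval (σ z) g = σ (Polynomial.aeval z g) :=
      Polynomial.aeval_algHom_apply (σ : Kb →ₐ[K] Kb) z g
    rw [e, hz, map_zero]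
  obtain ⟨L, iF, iN, iA, iG, ι, hι, hτσ⟩ := Pool.Agent.W150.FMK.Fld.main K
    (((crd A B p : Set Kb) ∪ (crd A₀ B₀ p : Set Kb)) ∪ ({z : Kb | Polynomial.aeval z g₁ = 0} ∪
      ({z : Kb | Polynomial.aeval z g₂ = 0} ∪ {z : Kb | Polynomial.aeval z g₃ = 0})))
    (((crd_finite A B p fin1).union (crd_finite A₀ B₀ p fin2)).union
      ((finz g₁ n₁).union ((finz g₂ n₂).union (finz g₃ n₃)))) (by
      rintro σ z ((hz | hz) | (hz | (hz | hz)))
      · exact Or.inl (Or.inl (crd_map A B p (σ : Kb →ₐ[K] Kb) hz))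
      · exact Or.inl (Or.inr (crd_map A₀ B₀ p (σ : Kb →ₐ[K] Kb) hz))
      · exact Or.inr (Or.inl (stab g₁ σ z hz))
      · exact Or.inr (Or.inr (Or.inl (stab g₂ σ z hz)))
      · exact Or.inr (Or.inr (Or.inr (stab g₃ σ z hz))))
  have hιE : ∀ z ∈ (crd A B p : Set Kb), ∃ x, ι x = z := fun z hz => hι z (Or.inl (Or.inl hz))
  have hιE₀ : ∀ z ∈ (crd A₀ B₀ p : Set Kb), ∃ x, ι x = z := fun z hz => hι z (Or.inl (Or.inr hz))
  have hι₁ : ∀ z : Kb, Polynomial.aeval z g₁ = 0 → ∃ x, ι x = z := fun z hz =>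
    hι z (Or.inr (Or.inl hz))
  have hι₂ : ∀ z : Kb, Polynomial.aeval z g₂ = 0 → ∃ x, ι x = z := fun z hz =>
    hι z (Or.inr (Or.inr (Or.inl hz)))
  have hι₃ : ∀ z : Kb, Polynomial.aeval z g₃ = 0 → ∃ x, ι x = z := fun z hz =>
    hι z (Or.inr (Or.inr (Or.inr hz)))
  have ev₁ : ∀ z : Kb, Polynomial.aeval z g₁ = z ^ 6 + ca Kb A * z ^ 2 + ca Kb B := by
    intro z; rw [hg₁]; simp [ca]
  have ev₂ : ∀ z : Kb, Polynomial.aeval z g₂ =
      z ^ 12 - algebraMap K Kb (4 * A₀ ^ 3 + 27 * B₀ ^ 2) := by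
    intro z; rw [hg₂]; simp
  have ev₃ : ∀ z : Kb, Polynomial.aeval z g₃ = z ^ 3 + ca Kb A₀ * z + ca Kb B₀ := by
    intro z; rw [hg₃]; simp [ca]
  have hιinj : Function.Injective ι := ι.injective
  -- the place
  obtain ⟨w, I, hwv, hIn⟩ := adv_in K L v
  set W := adv L w with hW
  have hv : ∀ x : K, x ≠ 0 → W.E ((Nat.card I : ℤ) * (adv K v).v x) (algebraMap K L x) := by
    intro x hx
    rw [← hwv]
    exact E_of_ne ((map_ne_zero _).2 hx)
  have h2L : W.E 0 (2 : L) := by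
    have := hv 2 two_ne_zero
    rw [hv2, mul_zero, map_ofNat] at this
    exact this
  have h3L : W.E 0 (3 : L) := by
    have := hv 3 three_ne_zero
    rw [hv3, mul_zero, map_ofNat] at this
    exact this
  have hI1 : 1 ≤ Nat.card I := Nat.card_pos
  -- the curve `E`
  obtain ⟨e₁, e₂, e₃, hsumL, l12, l23, l13, hAL, hBL⟩ := cubic_data A B hD ι (by
    intro z hz
    obtain ⟨u, hu⟩ := IsAlgClosed.exists_pow_nat_eq z (n := 2) (by norm_num)
    obtain ⟨u', hu'⟩ := hι₁ u (by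
      rw [ev₁]
      have : u ^ 6 = z ^ 3 := by rw [← hu]; ring
      rw [this, hu]; exact hz)
    exact ⟨u' ^ 2, by rw [map_pow, hu', hu]⟩)
  have hj0 : jv A B ≠ 0 := by
    intro h
    rw [h] at hj
    have : (adv K v).v 0 = 0 := by
      show -WithZero.log (v.valuation K 0) = 0
      rw [map_zero, WithZero.log_zero, neg_zero]
    omega
  have hjL : jr e₁ e₂ e₃ = algebraMap K L (jv A B) := by
    unfold jr jv
    have hDL : algebraMap K L (4 * A ^ 3 + 27 * B ^ 2) =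
        -((e₁ - e₂) * (e₂ - e₃) * (e₃ - e₁)) ^ 2 := by
      simp only [map_mul, map_add, map_pow, map_ofNat]
      rw [hAL, hBL]
      have : e₃ = -e₁ - e₂ := by linear_combination hsumL
      rw [this]; ring
    have hdL : ((e₁ - e₂) * (e₂ - e₃) * (e₃ - e₁)) ≠ 0 :=
      mul_ne_zero (mul_ne_zero (sub_ne_zero.2 l12) (sub_ne_zero.2 l23)) (sub_ne_zero.2 l13.symm)
    rw [map_div₀, hDL]
    simp only [map_mul, map_pow, map_ofNat]
    rw [hAL]
    have : e₃ = -e₁ - e₂ := by linear_combination hsumL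
    subst this
    rw [div_eq_div_iff (pow_ne_zero 2 hdL) (neg_ne_zero.2 (pow_ne_zero 2 hdL))]
    ring
  have hEj : W.E (Nat.card I * (adv K v).v (jv A B)) (jr e₁ e₂ e₃) := by
    rw [hjL]; exact hv _ hj0
  have hkneg : (Nat.card I : ℤ) * (adv K v).v (jv A B) < 0 :=
    mul_neg_of_pos_of_neg (by exact_mod_cast hI1) hj
  obtain ⟨x, η, H, D, hH, hcA, hcB⟩ := root_data le_rfl h2L (by norm_num) hsumL l12 l23 l13
    hkneg hEj
  -- scaling
  have hx0 : x ≠ 0 := D.he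
  have hroot : (-2 * x) ^ 3 + algebraMap K L A * (-2 * x) + algebraMap K L B = 0 := by
    rw [hAL, hBL, hcA, hcB]; unfold cA cB; ring
  obtain ⟨U, hU⟩ := IsAlgClosed.exists_pow_nat_eq (ι (-2 * x)) (n := 2) (by norm_num)
  have hUg : Polynomial.aeval U g₁ = 0 := by
    rw [ev₁]
    have : U ^ 6 = (ι (-2 * x)) ^ 3 := by rw [← hU]; ring
    rw [this, hU]
    have h1 := congrArg ι hroot
    rw [map_add, map_add, map_pow, map_mul ι (algebraMap K L A) (-2 * x), map_zero, ι.commutes,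
      ι.commutes] at h1
    exact h1
  obtain ⟨u, hu⟩ := hι₁ U hUg
  have hu2 : u ^ 2 = -2 * x := by
    apply hιinj
    rw [map_pow, hu, hU]
  have hu0 : u ≠ 0 := by
    rintro rfl
    have h1 : 2 * x = 0 := by linear_combination hu2
    exact hx0 ((mul_eq_zero.1 h1).resolve_left two_ne_zero)
  have hug : Polynomial.aeval u g₁ = 0 := by
    apply hιinj
    rw [map_zero]
    have := Polynomial.aeval_algHom_apply ι u g₁
    rw [← this, hu]; exact hUg
  set e' : L := -1 / 2 with he'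
  set η' : L := η / u ^ 2 with hη'
  have hxe : x = u ^ 2 * e' := by rw [hu2, he']; field_simp
  have hηe : η = u ^ 2 * η' := by rw [hη']; field_simp
  have hA' : algebraMap K L A = u ^ 4 * cA e' η' := by
    rw [hAL, hcA, hxe, hηe]; unfold cA; ring
  have hB' : algebraMap K L B = u ^ 6 * cB e' η' := by
    rw [hBL, hcB, hxe, hηe]; unfold cB; ring
  have he'E : W.E 0 e' := by
    rw [he']
    exact ((E_one (w := W)).neg.div h2L).cast (by ring)
  have D' : Dt W 0 H e' η' := by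
    refine ⟨?_, by norm_num, he'E.1⟩
    have h1 := D.dat
    have h2 : (η / (3 * x)) ^ 2 = (η' / (3 * e')) ^ 2 := by
      rw [hxe, hηe]
      have := he'E.1
      field_simp
    rwa [h2] at h1
  have N : ND W H e' η' := ⟨D', h3L, he'E⟩
  obtain hrat := rat_of ι A B hιE hu0 hA' hB'
  obtain ⟨s, hs⟩ := ts_desc (ι : L →+* Kb) D'.disc hodd hrat
  -- the torsion point of positive level
  obtain ⟨P, hP, α, hα, hlev⟩ := pos_level D' (ι : L →+* Kb) (n := p) hodd hrat (by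
      have h1 : W.v (p : L) = Nat.card I * (adv K v).v (p : K) := by
        rw [← hwv, map_natCast]
      rw [h1]
      have h2 : (Nat.card I : ℤ) ≤ 2 * H := by
        rw [hH]
        have : (Nat.card I : ℤ) * (adv K v).v (jv A B) ≤ Nat.card I * (-1) :=
          mul_le_mul_of_nonneg_left (by omega) (by positivity)
        linarith
      have h3 : (Nat.card I : ℤ) * (8 * (adv K v).v (p : K)) < Nat.card I * ((p : ℤ) ^ 2 - 1) :=
        mul_lt_mul_of_pos_left hvp (by exact_mod_cast hI1)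
      have h4 : 0 ≤ (p : ℤ) ^ 2 - 1 := by
        have : (13 : ℤ) ≤ p := by exact_mod_cast hp13
        nlinarith
      have h5 : (Nat.card I : ℤ) * ((p : ℤ) ^ 2 - 1) ≤ 2 * H * ((p : ℤ) ^ 2 - 1) :=
        mul_le_mul_of_nonneg_right h2 h4
      linarith)
  have hpI : p ∣ Nat.card I := by
    have h6 := LV.prime D' hlev hα hp hP
    rw [hH] at h6
    have h7 : (p : ℤ) ∣ Nat.card I * (adv K v).v (jv A B) := (dvd_neg).1 h6
    rcases (Nat.prime_iff_prime_int.1 hp).dvd_or_dvd h7 with h8 | h8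
    · exact Int.natCast_dvd_natCast.1 h8
    · exact absurd h8 hpj
  have hPT : P ∉ TT N p := by
    intro h
    have := LV.unique D' hlev h.2
    omega
  -- the curve `E₀`
  obtain ⟨U₀, hU₀⟩ := IsAlgClosed.exists_pow_nat_eq
    (algebraMap K Kb (4 * A₀ ^ 3 + 27 * B₀ ^ 2)) (n := 12) (by norm_num)
  have hU₀g : Polynomial.aeval U₀ g₂ = 0 := by rw [ev₂, hU₀, sub_self]
  obtain ⟨u₀, hu₀⟩ := hι₂ U₀ hU₀g
  have hu₀12 : u₀ ^ 12 = algebraMap K L (4 * A₀ ^ 3 + 27 * B₀ ^ 2) := by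
    apply hιinj
    rw [map_pow, hu₀, hU₀]
    exact (ι.commutes _).symm
  have hu₀0 : u₀ ≠ 0 := by
    rintro rfl
    rw [zero_pow (by norm_num)] at hu₀12
    exact (map_ne_zero (algebraMap K L)).2 hD₀ hu₀12.symm
  have hu₀g : Polynomial.aeval u₀ g₂ = 0 := by
    apply hιinj
    rw [map_zero]
    have := Polynomial.aeval_algHom_apply ι u₀ g₂
    rw [← this, hu₀]; exact hU₀g
  set a₀ : L := algebraMap K L A₀ / u₀ ^ 4 with ha₀
  set b₀ : L := algebraMap K L B₀ / u₀ ^ 6 with hb₀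
  have hA₀' : algebraMap K L A₀ = u₀ ^ 4 * a₀ := by rw [ha₀]; field_simp
  have hB₀' : algebraMap K L B₀ = u₀ ^ 6 * b₀ := by rw [hb₀]; field_simp
  have hD₀L : 4 * algebraMap K L A₀ ^ 3 + 27 * algebraMap K L B₀ ^ 2 = u₀ ^ 12 := by
    rw [hu₀12]
    simp only [map_mul, map_add, map_pow, map_ofNat]
  have hg : GR W a₀ b₀ := gr_of h2L h3L hu₀0 hA₀' hB₀' hD₀L (by
    have e : 6912 * algebraMap K L A₀ ^ 3 / (4 * algebraMap K L A₀ ^ 3 +
        27 * algebraMap K L B₀ ^ 2) = algebraMap K L (jv A₀ B₀) := by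
      unfold jv
      simp only [map_mul, map_add, map_pow, map_ofNat, map_div₀]
    rw [e]
    rcases hj₀ with h | h
    · left; rw [h, map_zero]
    · right
      rw [hwv]
      exact mul_nonneg (by positivity) h)
  obtain hrat₀ := rat_of ι A₀ B₀ hιE₀ hu₀0 hA₀' hB₀'
  have hdisc₀ : Disc a₀ b₀ := by
    unfold Disc
    exact mul_ne_zero two_ne_zero hg.disc.1
  obtain ⟨s₀, hs₀⟩ := ts_desc (ι : L →+* Kb) hdisc₀ hodd hrat₀
  obtain ⟨r₀, hr₀⟩ : ∃ r₀ : L, r₀ ^ 3 + a₀ * r₀ + b₀ = 0 := by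
    obtain ⟨e₁', e₂', e₃', q1, -, -, -, q2, q3⟩ := cubic_data A₀ B₀ hD₀ ι (by
      intro z hz
      exact hι₃ z (by rw [ev₃]; exact hz))
    refine ⟨e₁' / u₀ ^ 2, ?_⟩
    have q4 : e₁' ^ 3 + algebraMap K L A₀ * e₁' + algebraMap K L B₀ = 0 := by
      rw [q2, q3]
      have : e₃' = -e₁' - e₂' := by linear_combination q1
      rw [this]; ring
    rw [hA₀', hB₀'] at q4
    field_simp
    linear_combination q4
  -- elements of `p`-power order of the inertia group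
  have hroot_fix : ∀ (τ : L ≃ₐ[K] L) (k : ℕ), (∀ z, (fun z => rh τ z)^[p ^ k] z = z) →
      rh τ u = u ∧ rh τ u₀ = u₀ ∧ rh τ (cA e' η') = cA e' η' ∧ rh τ (cB e' η') = cB e' η' ∧
      rh τ a₀ = a₀ ∧ rh τ b₀ = b₀ := by
    intro τ k hk
    have k1 := fixroot hp g₁ n₁ (by omega) τ hk hug
    have k2 := fixroot hp g₂ n₂ (by omega) τ hk hu₀g
    have kc : ∀ c : K, rh τ (algebraMap K L c) = algebraMap K L c := fun c => τ.commutes c
    refine ⟨k1, k2, ?_, ?_, ?_, ?_⟩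
    · have e : cA e' η' = algebraMap K L A / u ^ 4 := by rw [hA']; field_simp
      rw [e, map_div₀, map_pow, k1, kc]
    · have e : cB e' η' = algebraMap K L B / u ^ 6 := by rw [hB']; field_simp
      rw [e, map_div₀, map_pow, k1, kc]
    · rw [ha₀, map_div₀, map_pow, k2, kc]
    · rw [hb₀, map_div₀, map_pow, k2, kc]
  have hone : ∀ (τ : L ≃ₐ[K] L) (k : ℕ), (∀ z, (fun z => rh τ z)^[p ^ k] z = z) →
      ∀ σ : Kb ≃ₐ[K] Kb, (∀ x, ι (τ x) = σ (ι x)) →
      ((∀ z ∈ (crd A B p : Set Kb), σ z = z) ∨ (∀ z ∈ (crd A₀ B₀ p : Set Kb), σ z = z)) →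
      ∀ z ∈ (((crd A B p : Set Kb) ∪ (crd A₀ B₀ p : Set Kb)) ∪
        ({z : Kb | Polynomial.aeval z g₁ = 0} ∪
        ({z : Kb | Polynomial.aeval z g₂ = 0} ∪ {z : Kb | Polynomial.aeval z g₃ = 0}))),
        σ z = z := by
    intro τ k hk σ hσ hor
    have hsp : ∀ (n : ℕ) (x : L), (σ ^ n) (ι x) = ι ((fun z => rh τ z)^[n] x) := by
      intro n
      induction n with
      | zero => intro x; rfl
      | succ n ih =>
        intro x
        rw [Function.iterate_succ_apply, ← ih, pow_succ]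
        show (σ ^ n) (σ (ι x)) = (σ ^ n) (ι (τ x))
        rw [hσ]
    have hboth : (∀ z ∈ (crd A B p : Set Kb), σ z = z) ∧
        (∀ z ∈ (crd A₀ B₀ p : Set Kb), σ z = z) := by
      have h := hF σ k ((act_triv_iff A B p _).2 fun z hz => by
        obtain ⟨x, rfl⟩ := hιE z hz
        rw [hsp, hk]) ((act_triv_iff A₀ B₀ p _).2 fun z hz => by
        obtain ⟨x, rfl⟩ := hιE₀ z hz
        rw [hsp, hk])
      rw [act_triv_iff, act_triv_iff] at h
      rcases hor with h1 | h1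
      · exact ⟨h1, h.1 h1⟩
      · exact ⟨h.2 h1, h1⟩
    have hpoly : ∀ g : Polynomial K, g ≠ 0 → g.natDegree < p → ∀ z : Kb,
        Polynomial.aeval z g = 0 → (∃ x, ι x = z) → σ z = z := by
      rintro g hg hgd z hz ⟨x, rfl⟩
      have hx : Polynomial.aeval x g = 0 := by
        apply hιinj
        rw [map_zero]
        have := Polynomial.aeval_algHom_apply ι x g
        rw [← this]; exact hz
      have := fixroot hp g hg hgd τ hk hx
      rw [← hσ]
      exact congrArg ι this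
    rintro z ((hz | hz) | (hz | (hz | hz)))
    · exact hboth.1 z hz
    · exact hboth.2 z hz
    · exact hpoly g₁ n₁ (by omega) z hz (hι₁ z hz)
    · exact hpoly g₂ n₂ (by omega) z hz (hι₂ z hz)
    · exact hpoly g₃ n₃ (by omega) z hz (hι₃ z hz)
  have hE_one : ∀ (τ : L ≃ₐ[K] L) (k : ℕ), (∀ z, (fun z => rh τ z)^[p ^ k] z = z) →
      ∀ (ha : rh τ (cA e' η') = cA e' η') (hb : rh τ (cB e' η') = cB e' η'),
      (∀ Q : Pt (cA e' η') (cB e' η'), p • Q = 0 → ac two_ne_zero (rh τ) ha hb Q = Q) →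
      τ = 1 := by
    intro τ k hk ha hb htriv
    obtain ⟨σ, hσ, hσ1⟩ := hτσ τ
    obtain ⟨k1, -⟩ := hroot_fix τ k hk
    have hS := triv_of ι A B hιE hu0 hA' hB' τ σ hσ k1 ha hb htriv
    exact hσ1 (hone τ k hk σ hσ (Or.inl hS))
  have hE₀_one : ∀ (τ : L ≃ₐ[K] L) (k : ℕ), (∀ z, (fun z => rh τ z)^[p ^ k] z = z) →
      ∀ (ha : rh τ a₀ = a₀) (hb : rh τ b₀ = b₀),
      (∀ Q : Pt a₀ b₀, p • Q = 0 → ac two_ne_zero (rh τ) ha hb Q = Q) → τ = 1 := by
    intro τ k hk ha hb htriv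
    obtain ⟨σ, hσ, hσ1⟩ := hτσ τ
    obtain ⟨-, k1, -⟩ := hroot_fix τ k hk
    have hS := triv_of ι A₀ B₀ hιE₀ hu₀0 hA₀' hB₀' τ σ hσ k1 ha hb htriv
    exact hσ1 (hone τ k hk σ hσ (Or.inr hS))
  have iter_pow : ∀ (τ : L ≃ₐ[K] L) (n : ℕ) (z : L), (fun z => rh τ z)^[n] z = (τ ^ n) z := by
    intro τ n
    induction n with
    | zero => intro z; rfl
    | succ n ih =>
      intro z
      rw [Function.iterate_succ_apply, ih, pow_succ]; rfl
  -- an element of order `p`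
  haveI : Fact p.Prime := ⟨hp⟩
  obtain ⟨τI, hτI⟩ := exists_prime_orderOf_dvd_card' (G := I) p hpI
  set τ : L ≃ₐ[K] L := (τI : L ≃ₐ[K] L) with hτ
  have hτp : τ ^ p = 1 := by
    have h1 : τI ^ p = 1 := by rw [← hτI]; exact pow_orderOf_eq_one τI
    have := congrArg (fun x : I => (x : L ≃ₐ[K] L)) h1
    simpa using this
  have hτ1 : τ ≠ 1 := by
    intro h
    have : τI = 1 := Subtype.ext h
    rw [this, orderOf_one] at hτI
    omega
  have hτk : ∀ z, (fun z => rh τ z)^[p ^ 1] z = z := by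
    intro z; rw [iter_pow, pow_one, hτp]; rfl
  obtain ⟨ku, ku₀, kA, kB, ka₀, kb₀⟩ := hroot_fix τ 1 hτk
  have hτIn : In W (rh τ) := hIn τ τI.2
  -- the curve `E₀`
  obtain ⟨P₀, hP₀, hP₀'⟩ : ∃ P₀ : Pt a₀ b₀, p • P₀ = 0 ∧
      ac two_ne_zero (rh τ) ka₀ kb₀ P₀ ≠ P₀ := by
    by_contra hcon
    push Not at hcon
    exact hτ1 (hE₀_one τ 1 hτk ka₀ kb₀ hcon)
  obtain ⟨h₀, hh₀, hle₀, z₀, hz₀, hz₀E⟩ := hg.disp hp (by omega) hs₀ hr₀ hτIn ka₀ kb₀ hP₀ hP₀'
  have hp1 : (13 : ℤ) ≤ p := by exact_mod_cast hp13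
  have hwp : W.G 1 (p : L) := by
    right
    nlinarith
  obtain ⟨t, ht0, htp, htK⟩ := N.exists_kn hp hwp hs
  have Bs' : Bs N p s t P := ⟨hp, hodd, hs, ⟨htp, N.kn_lv htK⟩, ht0, hP, hPT⟩
  have he'fix : ∀ τ : L ≃ₐ[K] L, rh τ e' = e' := by
    intro τ
    rw [he', map_div₀, map_neg, map_one, map_ofNat]
  -- `p ^ 2` does not divide the order of the inertia group
  have hp2I : ¬ p ^ 2 ∣ Nat.card I := by
    intro hdvd
    obtain ⟨S, hS⟩ := Sylow.exists_subgroup_card_pow_prime (G := I) p hdvd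
    have hSk : ∀ σ ∈ S, ∀ z, (fun z => rh ((σ : I) : L ≃ₐ[K] L) z)^[p ^ 2] z = z := by
      intro σ hσ z
      rw [iter_pow]
      have h1 : (⟨σ, hσ⟩ : S) ^ (p ^ 2) = 1 := by rw [← hS]; exact pow_card_eq_one'
      have h2 : (σ : I) ^ (p ^ 2) = 1 := by
        have := congrArg (fun x : S => (x : I)) h1
        simpa using this
      have h3 : ((σ : I) : L ≃ₐ[K] L) ^ (p ^ 2) = 1 := by
        have := congrArg (fun x : I => (x : L ≃ₐ[K] L)) h2
        simpa using this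
      rw [h3]; rfl
    have hWl : ∀ σ ∈ S, Wl W e' η' p (rh ((σ : I) : L ≃ₐ[K] L)) := by
      intro σ hσ
      obtain ⟨-, -, k3, k4, -, -⟩ := hroot_fix _ 2 (hSk σ hσ)
      exact ⟨hIn _ σ.2, k3, k4, he'fix _, 2, hSk σ hσ⟩
    set f : S → Pt (cA e' η') (cB e' η') := fun σ =>
      ac two_ne_zero (rh ((σ : I) : L ≃ₐ[K] L)) (hWl σ σ.2).a (hWl σ σ.2).b P - P with hf
    have hfin : Finite S := inferInstance
    haveI : Fintype S := Fintype.ofFinite S
    obtain ⟨σ₁, -, σ₂, -, hne, heq⟩ := pigeon_T (p := p) (t := t) (Finset.univ : Finset S) (by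
      rw [Finset.card_univ, ← Nat.card_eq_fintype_card, hS, pow_two]
      have := hp.two_le
      nlinarith) f (by
      intro σ _
      obtain ⟨i, hi, h⟩ := Bs'.T_mul (Bs'.disp (hWl σ σ.2) hP)
      exact ⟨i, hi, h⟩)
    simp only [hf] at heq
    have heq' := sub_left_injective heq
    -- `σ₁⁻¹ σ₂` fixes `P`
    set ρ : S := σ₁⁻¹ * σ₂ with hρ
    have hρP : ac two_ne_zero (rh ((ρ : I) : L ≃ₐ[K] L)) (hWl ρ ρ.2).a (hWl ρ ρ.2).b P = P := by
      rcases P with _ | ⟨X, Y, hXY⟩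
      · exact map_zero _
      · simp only [ac_some, Affine.Point.some.injEq] at heq' ⊢
        have hcomp : ∀ z : L, ((σ₁ : I) : L ≃ₐ[K] L) z = ((σ₂ : I) : L ≃ₐ[K] L) z →
            rh ((ρ : I) : L ≃ₐ[K] L) z = z := by
          intro z hz
          rw [rh_apply, hρ]
          have : (((σ₁⁻¹ * σ₂ : S) : I) : L ≃ₐ[K] L) =
              (((σ₁ : I) : L ≃ₐ[K] L))⁻¹ * ((σ₂ : I) : L ≃ₐ[K] L) := by simp
          rw [this, AlgEquiv.mul_apply, ← hz, ← AlgEquiv.mul_apply, inv_mul_cancel]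
          rfl
        exact ⟨hcomp X heq'.1, hcomp Y heq'.2⟩
    have hρ1 := hE_one ((ρ : I) : L ≃ₐ[K] L) 2 (hSk ρ ρ.2) (hWl ρ ρ.2).a (hWl ρ ρ.2).b
      (fun Q hQ => Bs'.fix (hWl ρ ρ.2) hρP hQ)
    have hρ2 : ρ = 1 := Subtype.ext (Subtype.ext hρ1)
    apply hne
    rw [hρ] at hρ2
    exact (inv_mul_eq_one.1 hρ2)
  have hp2H : ¬ (p : ℤ) ^ 2 ∣ 2 * H := by
    intro hdvd
    rw [hH, dvd_neg] at hdvd
    have hcop : IsCoprime ((p : ℤ) ^ 2) ((adv K v).v (jv A B)) := by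
      apply IsCoprime.pow_left
      rw [Int.isCoprime_iff_gcd_eq_one]
      exact (Nat.Prime.coprime_iff_not_dvd hp (n := ((adv K v).v (jv A B)).natAbs)).2 (by
        intro h; exact hpj (Int.natCast_dvd.2 h))
    have := hcop.dvd_of_dvd_mul_right hdvd
    exact hp2I (by exact_mod_cast this)
  -- the end
  have hWτ : Wl W e' η' p (rh τ) := ⟨hτIn, kA, kB, he'fix τ, 1, hτk⟩
  obtain ⟨π, hπ⟩ := uniformizer w
  obtain ⟨h, hh, hle, hall⟩ := Bs'.main hwp htK (fun z hz => frob_surj w hp hwp hz) hπ hWτ (by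
    intro hfix
    exact hτ1 (hE_one τ 1 hτk kA kB (fun Q hQ => Bs'.fix hWτ hfix hQ))) hp2H
  have hfin := hz₀E.le_of_G (hall z₀ hz₀)
  nlinarith

end Pool.Agent.Q170.MT
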