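import Pool.Agent.Q170.MT.Adel
import Pool.Agent.Q170.MT.Div
import Pool.Agent.Q170.MT.Loc2
import Pool.Agent.Q170.SU.Open

/-!
The simultaneous image of the Galois group for several elliptic curves (helper file).
-/

set_option autoImplicit false

namespace Pool.Agent.Q170.MT

open WeierstrassCurve Pool.Agent.H901R3.MS Pool.Agent.Y673.Loc Pool.Agent.Y673.FM
open NumberField IsDedekindDomain Pool.Agent.Y673.SL

section act
variable {K : Type} [Field K]

open scoped Classical in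
theorem act_one (A B : K) (P : EP A B) : act A B 1 P = P := by
  rcases P with _ | ⟨x, y, h⟩
  · exact map_zero _
  · rfl

open scoped Classical in
theorem act_mul (A B : K) (σ τ : AlgebraicClosure K ≃ₐ[K] AlgebraicClosure K) (P : EP A B) :
    act A B (σ * τ) P = act A B σ (act A B τ P) := by
  rcases P with _ | ⟨x, y, h⟩
  · have e : (Affine.Point.zero : EP A B) = 0 := rfl
    rw [e, map_zero, map_zero, map_zero]
  · rfl

open scoped Classical in
theorem act_pow_triv (A B : K) {p : ℕ} (σ : AlgebraicClosure K ≃ₐ[K] AlgebraicClosure K)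
    (h : ∀ P : EP A B, p • P = 0 → act A B σ P = P) (n : ℕ) :
    ∀ P : EP A B, p • P = 0 → act A B (σ ^ n) P = P := by
  induction n with
  | zero => intro P _; rw [pow_zero, act_one]
  | succ n ih => intro P hP; rw [pow_succ, act_mul, h P hP, ih P hP]

open scoped Classical in
/-- some element of `p`-power order acts trivially on the points of order `p` of one curve only -/
theorem of_not_sim {A B A₀ B₀ : K} {p : ℕ}
    (h : ¬ Sim A B A₀ B₀ p) :
    (∃ σ : AlgebraicClosure K ≃ₐ[K] AlgebraicClosure K,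
      (∀ P : EP A B, p • P = 0 → act A B σ P = P) ∧
      (∀ P : EP A₀ B₀, p • P = 0 → act A₀ B₀ (σ ^ p) P = P) ∧
      ∃ P : EP A₀ B₀, p • P = 0 ∧ act A₀ B₀ σ P ≠ P) ∨
    (∃ σ : AlgebraicClosure K ≃ₐ[K] AlgebraicClosure K,
      (∀ P : EP A₀ B₀, p • P = 0 → act A₀ B₀ σ P = P) ∧
      (∀ P : EP A B, p • P = 0 → act A B (σ ^ p) P = P) ∧
      ∃ P : EP A B, p • P = 0 ∧ act A B σ P ≠ P) := by
  have key : ∀ {A B A₀ B₀ : K} (σ : AlgebraicClosure K ≃ₐ[K] AlgebraicClosure K) (k : ℕ),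
      (∀ P : EP A₀ B₀, p • P = 0 → act A₀ B₀ (σ ^ p ^ k) P = P) →
      (∀ P : EP A B, p • P = 0 → act A B σ P = P) →
      ¬ (∀ P : EP A₀ B₀, p • P = 0 → act A₀ B₀ σ P = P) →
      ∃ σ : AlgebraicClosure K ≃ₐ[K] AlgebraicClosure K,
        (∀ P : EP A B, p • P = 0 → act A B σ P = P) ∧
        (∀ P : EP A₀ B₀, p • P = 0 → act A₀ B₀ (σ ^ p) P = P) ∧
        ∃ P : EP A₀ B₀, p • P = 0 ∧ act A₀ B₀ σ P ≠ P := by
    intro A B A₀ B₀ σ k hk h1 h2
    induction k with
    | zero =>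
      rw [pow_zero, pow_one] at hk
      exact absurd hk h2
    | succ k ih =>
      by_cases h3 : ∀ P : EP A₀ B₀, p • P = 0 → act A₀ B₀ (σ ^ p ^ k) P = P
      · exact ih h3
      · push Not at h3
        exact ⟨σ ^ p ^ k, act_pow_triv A B σ h1 _, by rwa [← pow_mul, ← pow_succ], h3⟩
  unfold Sim at h
  push Not at h
  obtain ⟨σ, k, h1, h2, h3⟩ := h
  rcases h3 with ⟨h4, h5⟩ | ⟨h4, h5⟩
  · left
    exact key σ k h2 h4 (by push Not; exact h5)
  · right
    exact key σ k h1 h5 (by push Not; exact h4)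

end act

section base
variable {K : Type} [Field K] [CharZero K] {ι : Type} [Fintype ι] [DecidableEq ι]

open scoped Classical in
/-- the simultaneous image for powers of one prime -/
theorem good_base {p : ℕ} (hp : p.Prime) (hp5 : 5 ≤ p) (A B : ι → K)
    (hD : ∀ i, 4 * A i ^ 3 + 27 * B i ^ 2 ≠ 0) (hSL : ∀ i, HasSL (A i) (B i) p)
    (hS : ∀ i j, i ≠ j → ¬ Sim (A i) (B i) (A j) (B j) p) (k : ℕ) :
    Good (fun i => act (A i) (B i)) (p ^ (k + 1)) := by
  have hSL' := hSL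
  unfold HasSL at hSL'
  choose P₁ Q₁ hP₁ hQ₁ hP0 hPQ hσ using hSL'
  have H₁ : ∀ i, Bs p (P₁ i) (Q₁ i) := by
    intro i
    obtain ⟨h1, h2⟩ := Pool.Agent.Y673.SL.basis (hD i) hp (hP₁ i) (hQ₁ i) (hP0 i) (hPQ i)
    exact ⟨hP₁ i, hQ₁ i, h1, h2⟩
  choose P hP using fun i => div_pt (hD i) hp k (P₁ i) (hP₁ i)
  choose Q hQ using fun i => div_pt (hD i) hp k (Q₁ i) (hQ₁ i)
  have HB : ∀ i, Bs (p ^ (k + 1)) (P i) (Q i) := fun i => (H₁ i).lift (hP i) (hQ i)
  refine ⟨⟨P, Q, HB, ?_⟩, ?_⟩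
  · intro a b c d hdet
    refine simul hp hp5 k (fun i => act (A i) (B i)) (fun i v => act_one (A i) (B i) v)
      (fun i σ τ v => act_mul (A i) (B i) σ τ v) P₁ Q₁ P Q H₁ hP hQ hσ ?_ a b c d hdet
    intro i j hij
    rcases of_not_sim (hS i j hij) with ⟨σ, h1, h2, h3⟩ | ⟨σ, h1, h2, h3⟩
    · exact ⟨i, j, Or.inl ⟨rfl, rfl⟩, σ, h1, h2, h3⟩
    · exact ⟨j, i, Or.inr ⟨rfl, rfl⟩, σ, h1, h2, h3⟩
  · choose f hf using fun i => exists_rep (HB i) (act (A i) (B i))
      (fun v => act_one (A i) (B i) v) (fun σ τ v => act_mul (A i) (B i) σ τ v)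
    choose M hM hM' using fun i => expo hp hp5 k (f i)
    refine ⟨∏ i, M i, ?_, ?_⟩
    · intro l hl hll h
      obtain ⟨i, -, hi⟩ := (Prime.dvd_finsetProd_iff hl.prime _).1 h
      exact hM i l hl (hll p hp (dvd_pow_self p (Nat.succ_ne_zero k))) hi
    · intro σ i v hv
      obtain ⟨m, hm⟩ : M i ∣ ∏ i, M i := Finset.dvd_prod_of_mem _ (Finset.mem_univ i)
      have h1 : f i (σ ^ (∏ i, M i)) = 1 := by
        rw [hm, mul_comm, pow_mul]
        exact hM' i (σ ^ m)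
      have e : f i (σ ^ (∏ i, M i)) = !![((1 : ℤ) : ZMod (p ^ (k + 1))), ((0 : ℤ) : ZMod _);
          ((0 : ℤ) : ZMod _), ((1 : ℤ) : ZMod _)] := by
        rw [h1, Matrix.one_fin_two]
        push_cast
        rfl
      obtain ⟨h2, h3⟩ := (hf i _ 1 0 0 1).2 e
      rw [one_zsmul, zero_zsmul, add_zero] at h2
      rw [one_zsmul, zero_zsmul, zero_add] at h3
      obtain ⟨x, y, rfl⟩ := (HB i).span v hv
      show act (A i) (B i) (σ ^ (∏ i, M i)) _ = _
      rw [map_add, map_zsmul, map_zsmul, h2, h3]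

end base

end Pool.Agent.Q170.MT
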