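import Pool.Agent.Q170.MT.Cnt

/-!
The simultaneous image of the Galois group for the members of several families with several parameters
(helper file).
-/

set_option autoImplicit false

namespace Pool.Agent.Q170.MT

open NumberField IsDedekindDomain Pool.Agent.Q170.FZ MvPolynomial Pool.Agent.Q170.SU
open Pool.Agent.Q170.ZP.Count
open Pool.Agent.Y733.LS (jj)
open Pool.Agent.Y673.Loc (adv act jv)
open Pool.Agent.Y673.SL (HasSL)

/-- the local theorem, for two invariants which are rational numbers -/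
theorem link2 {L : Type} [Field L] [NumberField L] {p : ℕ} (hp : p.Prime) (hp13 : 13 ≤ p)
    (hL : Mild L p) (A B A' B' : L) (hD : 4 * A ^ 3 + 27 * B ^ 2 ≠ 0)
    (hD' : 4 * A' ^ 3 + 27 * B' ^ 2 ≠ 0) (hF : Sim A B A' B' p) {a b a' b' : ℤ}
    (hj : jj A B = (a : L) / b) (hj' : jj A' B' = (a' : L) / b') (hb : b ≠ 0) {q : ℕ}
    (hq : q.Prime) (hq3 : 3 < q) (hqb : (q : ℤ) ∣ b) (hqa : ¬ (q : ℤ) ∣ a)
    (hqb' : ¬ (q : ℤ) ∣ b') : p ∣ b.natAbs.factorization q := by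
  have hj1 : jv A B = (a : L) / b := hj
  have hj2 : jv A' B' = (a' : L) / b' := hj'
  obtain ⟨v, hqv⟩ := exists_over L hq
  have hq2 : ¬ (q : ℤ) ∣ 2 := fun h => by
    have := Int.le_of_dvd (by norm_num) h
    omega
  have hq3' : ¬ (q : ℤ) ∣ 3 := fun h => by
    have := Int.le_of_dvd (by norm_num) h
    omega
  have h2 := (adv_unit v hq hqv hq2).2
  have h3 := (adv_unit v hq hqv hq3').2
  push_cast at h2 h3
  have he1 := adv_pos v hq hqv
  have hbE := adv_int v hq hqv hb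
  have haE := adv_unit v hq hqv hqa
  have hb'E := adv_unit v hq hqv hqb'
  obtain ⟨f, hf⟩ : ∃ f, f = b.natAbs.factorization q := ⟨_, rfl⟩
  have hf1 : 1 ≤ f := by
    rw [hf]
    exact hq.factorization_pos_of_dvd (Int.natAbs_ne_zero.2 hb) (Int.natCast_dvd.1 hqb)
  rw [← hf] at hbE ⊢
  have hjE := haE.div hbE
  rw [← hj1, zero_sub] at hjE
  have hG : (adv L v).G 0 (jv A' B') := by
    rw [hj2]
    have h6 : (adv L v).G 0 (a' : L) := by
      by_cases ha0 : a' = 0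
      · left
        rw [ha0, Int.cast_zero]
      · right
        rw [(adv_int v hq hqv ha0).2]
        positivity
    have h7 := h6.div hb'E
    rwa [sub_zero] at h7
  have hneg : (adv L v).v (jv A B) < 0 := by
    rw [hjE.2]
    have h8 : (1 : ℤ) ≤ (adv L v).v (q : L) * (f : ℤ) := by
      have h9 : (1 : ℤ) ≤ f := by exact_mod_cast hf1
      nlinarith
    omega
  have hdvd := loc2 A B A' B' hD hD' hp hp13 hF v h2 h3 (hL.ram (by omega) v hq hp hqv) hneg hG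
  rw [hjE.2, dvd_neg] at hdvd
  have hpp : Prime (p : ℤ) := Nat.prime_iff_prime_int.1 hp
  rcases hpp.dvd_or_dvd hdvd with h12 | h12
  · exact absurd h12 (hL v q hq hqv).1
  · exact_mod_cast h12

variable {r : ℕ}

/-- elements of `p`-power order act in the same way on the points of order `p` of two curves -/
def Cong2 (N : ℕ) (a b a' b' : ℤ) : Prop :=
  ∃ p : ℕ, p.Prime ∧ N ≤ p ∧ ∃ (L : Type) (_ : Field L) (_ : NumberField L), Mild L p ∧
    ∃ A B A' B' : L, 4 * A ^ 3 + 27 * B ^ 2 ≠ 0 ∧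
      4 * A' ^ 3 + 27 * B' ^ 2 ≠ 0 ∧ jj A B = (a : L) / b ∧ jj A' B' = (a' : L) / b' ∧
      Sim A B A' B' p

theorem Cong2.symm {N : ℕ} {a b a' b' : ℤ} (h : Cong2 N a b a' b') : Cong2 N a' b' a b := by
  obtain ⟨p, hp, hN, L, i1, i2, hL, A, B, A', B', h1, h2, h3, h4, h5⟩ := h
  exact ⟨p, hp, hN, L, i1, i2, hL, A', B', A, B, h2, h1, h4, h3, fun σ k h6 h7 =>
    (h5 σ k h7 h6).symm⟩

/-- pairs of families -/
theorem pairs2 (F G F' G' P : MvPolynomial (Fin r) ℤ) (hP : Irreducible P)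
    (hPd : 0 < P.totalDegree) (w : ℕ) (hw : 1 ≤ w) (hw1 : P ^ w ∣ G) (hw2 : ¬ P ^ (w + 1) ∣ G)
    (hPF : ¬ P ∣ F) (hPG' : ¬ P ∣ G') (N : ℕ) (hN : 13 ≤ N) (hwN : w < N) (ε : ℝ) (hε : 0 < ε) :
    ∃ C : ℝ, 0 < C ∧ ∀ H : ℕ, 1 ≤ H → ∀ Bad : Finset (Fin r → ℤ), Bad ⊆ box r H →
      (∀ t ∈ Bad, eval t G ≠ 0 ∧ Cong2 N (eval t F) (eval t G) (eval t F') (eval t G')) →
      (Bad.card : ℝ) ≤ C * (H : ℝ) ^ ((r : ℝ) - 1 + P.totalDegree / (N : ℝ) + ε) := by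
  classical
  obtain ⟨G₁, rfl⟩ := hw1
  have hPp : Prime P := UniqueFactorizationMonoid.irreducible_iff_prime.1 hP
  have hPG₁ : ¬ P ∣ G₁ := by
    rintro ⟨G₂, rfl⟩
    exact hw2 ⟨G₂, by ring⟩
  have hrel : IsRelPrime P (F * G₁ * G') := by
    rw [hP.isRelPrime_iff_not_dvd]
    intro h
    rcases hPp.dvd_or_dvd h with h | h
    · rcases hPp.dvd_or_dvd h with h | h
      · exact hPF h
      · exact hPG₁ h
    · exact hPG' h
  obtain ⟨j, hj⟩ := exists_var P hPd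
  obtain ⟨c, hc, hres⟩ := exists_res P _ hrel j
  obtain ⟨C, hC, hcard⟩ := card_pow P j hj c hc 3 N (by omega) ε hε
  refine ⟨C, hC, fun H hH Bad hBad hbad => ?_⟩
  have h := hcard H hH 1 le_rfl Bad hBad fun t ht => by
    obtain ⟨hG, p, hp, hNp, L, iF, iN, hL, A, B, A', B', hD, hD', hj1, hj2, hF⟩ := hbad t ht
    rw [map_mul, map_pow] at hG
    have hP0 : eval t P ≠ 0 := by
      intro h0
      rw [h0, zero_pow (by omega), zero_mul] at hG
      exact hG rfl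
    refine ⟨hP0, p, hNp, 1, le_rfl, le_rfl, fun q hq hq3 hqc _ => ?_⟩
    by_cases hqP : (q : ℤ) ∣ eval t P
    swap
    · rw [Nat.factorization_eq_zero_of_not_dvd fun h => hqP (Int.natCast_dvd.2 h)]
      exact dvd_zero _
    have hE := hres t q hqc hqP
    rw [map_mul, map_mul] at hE
    have hqF : ¬ (q : ℤ) ∣ eval t F := fun h =>
      hE (dvd_mul_of_dvd_left (dvd_mul_of_dvd_left h _) _)
    have hqG₁ : ¬ (q : ℤ) ∣ eval t G₁ := fun h =>
      hE (dvd_mul_of_dvd_left (dvd_mul_of_dvd_right h _) _)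
    have hqG' : ¬ (q : ℤ) ∣ eval t G' := fun h => hE (dvd_mul_of_dvd_right h _)
    have h1 := link2 hp (hN.trans hNp) hL A B A' B' hD hD' hF hj1 hj2 (by
      rw [map_mul, map_pow]
      exact hG) hq hq3 (by
      rw [map_mul, map_pow]
      exact dvd_mul_of_dvd_left (dvd_pow hqP (by omega)) _) hqF hqG'
    rw [map_mul, map_pow, Int.natAbs_mul, Int.natAbs_pow] at h1
    have hn1 : (eval t P).natAbs ^ w ≠ 0 := pow_ne_zero _ (Int.natAbs_ne_zero.2 hP0)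
    have hn2 : (eval t G₁).natAbs ≠ 0 := Int.natAbs_ne_zero.2 (right_ne_zero_of_mul hG)
    rw [Nat.factorization_mul hn1 hn2, Nat.factorization_pow, Finsupp.add_apply,
      Finsupp.smul_apply, smul_eq_mul,
      Nat.factorization_eq_zero_of_not_dvd fun h => hqG₁ (Int.natCast_dvd.2 h), add_zero] at h1
    rcases (hp.dvd_mul).1 h1 with h2 | h2
    · have := Nat.le_of_dvd hw h2
      omega
    · exact h2
  rwa [Nat.cast_one, Real.one_rpow, mul_one] at h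

/-- finitely many exceptional sets -/
theorem union_bound {J : Type} [Fintype J] (Q : J → (Fin r → ℤ) → Prop) (E : ℝ)
    (h : ∀ j, ∃ C : ℝ, 0 < C ∧ ∀ H : ℕ, 1 ≤ H → ∀ Bad : Finset (Fin r → ℤ), Bad ⊆ box r H →
      (∀ t ∈ Bad, Q j t) → (Bad.card : ℝ) ≤ C * (H : ℝ) ^ E) :
    ∃ C : ℝ, 0 < C ∧ ∀ H : ℕ, 1 ≤ H → ∀ Bad : Finset (Fin r → ℤ), Bad ⊆ box r H →
      (∀ t ∈ Bad, ∃ j, Q j t) → (Bad.card : ℝ) ≤ C * (H : ℝ) ^ E := by
  classical
  choose C hC hcard using h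
  refine ⟨1 + ∑ j, C j, ?_, fun H hH Bad hBad hbad => ?_⟩
  · have : 0 ≤ ∑ j, C j := Finset.sum_nonneg fun j _ => (hC j).le
    linarith
  have h1 : Bad ⊆ Finset.univ.biUnion (fun j => Bad.filter (Q j)) := by
    intro t ht
    obtain ⟨j, hj⟩ := hbad t ht
    exact Finset.mem_biUnion.2 ⟨j, Finset.mem_univ j, Finset.mem_filter.2 ⟨ht, hj⟩⟩
  have h2 : Bad.card ≤ ∑ j, (Bad.filter (Q j)).card :=
    (Finset.card_le_card h1).trans Finset.card_biUnion_le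
  have h3 : (Bad.card : ℝ) ≤ ∑ j, ((Bad.filter (Q j)).card : ℝ) := by exact_mod_cast h2
  have hH0 : (0 : ℝ) ≤ (H : ℝ) ^ E := by positivity
  refine h3.trans ((Finset.sum_le_sum fun j _ => hcard j H hH (Bad.filter (Q j))
    ((Finset.filter_subset _ _).trans hBad) fun t ht => (Finset.mem_filter.1 ht).2).trans ?_)
  rw [← Finset.sum_mul]
  refine mul_le_mul_of_nonneg_right ?_ hH0
  linarith

/-- `P` is a pole of order `w` of `F/G` -/
structure Pl (F G P : MvPolynomial (Fin r) ℤ) (w : ℕ) : Prop where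
  irr : Irreducible P
  deg : 0 < P.totalDegree
  one : 1 ≤ w
  dvd : P ^ w ∣ G
  ndvd : ¬ P ^ (w + 1) ∣ G
  num : ¬ P ∣ F

variable {ι : Type} [Fintype ι] [DecidableEq ι]

open scoped Classical in
/-- the image is not as large as possible for some tuple of curves over some number field -/
def NoGood (N : ℕ) (a b : ι → ℤ) : Prop :=
  ∃ (L : Type) (_ : Field L) (_ : NumberField L) (A B : ι → L),
    (∀ i, 4 * A i ^ 3 + 27 * B i ^ 2 ≠ 0) ∧ (∀ i, jj (A i) (B i) = (a i : L) / b i) ∧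
    ∃ n : ℕ, n ≠ 0 ∧ (∀ q : ℕ, q.Prime → q ∣ n → N ≤ q ∧ Mild L q) ∧
      ¬ Good (fun i => act (A i) (B i)) n

/-- **Simultaneous images for almost all members.** -/
theorem main (F G : ι → MvPolynomial (Fin r) ℤ) (N : ℕ) (hN : 13 ≤ N) (κ : ℝ)
    (hs : ∀ i, ∃ P w, Pl (F i) (G i) P w ∧ w < N ∧ ((P.totalDegree : ℝ) +
      2 * (max (F i).totalDegree (G i).totalDegree : ℕ) / (w : ℝ)) / N ≤ κ)
    (hd : ∀ i j, i ≠ j → ∃ P w, w < N ∧ (P.totalDegree : ℝ) / N ≤ κ ∧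
      ((Pl (F i) (G i) P w ∧ ¬ P ∣ G j) ∨ (Pl (F j) (G j) P w ∧ ¬ P ∣ G i)))
    (ε : ℝ) (hε : 0 < ε) :
    ∃ C : ℝ, 0 < C ∧ ∀ H : ℕ, 1 ≤ H → ∀ Bad : Finset (Fin r → ℤ), Bad ⊆ box r H →
      (∀ t ∈ Bad, (∀ i, eval t (G i) ≠ 0) ∧
        NoGood N (fun i => eval t (F i)) (fun i => eval t (G i))) →
      (Bad.card : ℝ) ≤ C * (H : ℝ) ^ ((r : ℝ) - 1 + κ + ε) := by
  classical
  have mono : ∀ {E E' : ℝ} {Q : (Fin r → ℤ) → Prop}, E ≤ E' →
      (∃ C : ℝ, 0 < C ∧ ∀ H : ℕ, 1 ≤ H → ∀ Bad : Finset (Fin r → ℤ), Bad ⊆ box r H →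
        (∀ t ∈ Bad, Q t) → (Bad.card : ℝ) ≤ C * (H : ℝ) ^ E) →
      ∃ C : ℝ, 0 < C ∧ ∀ H : ℕ, 1 ≤ H → ∀ Bad : Finset (Fin r → ℤ), Bad ⊆ box r H →
        (∀ t ∈ Bad, Q t) → (Bad.card : ℝ) ≤ C * (H : ℝ) ^ E' := by
    rintro E E' Q hE ⟨C, hC, h⟩
    refine ⟨C, hC, fun H hH Bad hBad hbad => (h H hH Bad hBad hbad).trans ?_⟩
    refine mul_le_mul_of_nonneg_left ?_ hC.le
    exact Real.rpow_le_rpow_of_exponent_le (by exact_mod_cast hH) hE
  obtain ⟨C, hC, hU⟩ := union_bound (r := r) (J := ι ⊕ {x : ι × ι // x.1 ≠ x.2})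
    (fun j t => match j with
      | Sum.inl i => eval t (G i) ≠ 0 ∧ NoSL N (eval t (F i)) (eval t (G i))
      | Sum.inr x => eval t (G x.1.1) ≠ 0 ∧ eval t (G x.1.2) ≠ 0 ∧
          Cong2 N (eval t (F x.1.1)) (eval t (G x.1.1)) (eval t (F x.1.2)) (eval t (G x.1.2)))
    ((r : ℝ) - 1 + κ + ε) (by
      rintro (i | ⟨⟨i, j⟩, hij⟩)
      · obtain ⟨P, w, hP, hwN, hκ⟩ := hs i
        refine mono ?_ (count_SL (F i) (G i) P hP.irr hP.deg w hP.one hP.dvd hP.ndvd hP.num N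
          (by omega) hwN ε hε)
        linarith
      · obtain ⟨P, w, hwN, hκ, h | h⟩ := hd i j hij
        · obtain ⟨hP, hPG⟩ := h
          obtain ⟨C, hC, h1⟩ := pairs2 (F i) (G i) (F j) (G j) P hP.irr hP.deg w hP.one hP.dvd
            hP.ndvd hP.num hPG N hN hwN ε hε
          refine mono (E := (r : ℝ) - 1 + P.totalDegree / (N : ℝ) + ε) (by linarith)
            ⟨C, hC, fun H hH Bad hBad hbad => h1 H hH Bad hBad fun t ht => ?_⟩
          obtain ⟨h2, h3, h4⟩ := hbad t ht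
          exact ⟨h2, h4⟩
        · obtain ⟨hP, hPG⟩ := h
          obtain ⟨C, hC, h1⟩ := pairs2 (F j) (G j) (F i) (G i) P hP.irr hP.deg w hP.one hP.dvd
            hP.ndvd hP.num hPG N hN hwN ε hε
          refine mono (E := (r : ℝ) - 1 + P.totalDegree / (N : ℝ) + ε) (by linarith)
            ⟨C, hC, fun H hH Bad hBad hbad => h1 H hH Bad hBad fun t ht => ?_⟩
          obtain ⟨h2, h3, h4⟩ := hbad t ht
          exact ⟨h3, h4.symm⟩)
  refine ⟨C, hC, fun H hH Bad hBad hbad => hU H hH Bad hBad fun t ht => ?_⟩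
  obtain ⟨hG, L, iF, iN, A, B, hD, hj, n, hn, hnq, hno⟩ := hbad t ht
  by_contra hcon
  push Not at hcon
  apply hno
  refine good_all _ (fun i v => act_one (A i) (B i) v)
    (fun i σ τ v => act_mul (A i) (B i) σ τ v) n.primeFactors (fun p hp => ?_) n hn
    (fun q hq hqn => Nat.mem_primeFactors.2 ⟨hq, hqn, hn⟩)
  obtain ⟨hpp, hpn, -⟩ := Nat.mem_primeFactors.1 hp
  obtain ⟨hNp, hL⟩ := hnq p hpp hpn
  refine ⟨hpp, by omega, fun k => good_base hpp (by omega) A B hD (fun i => ?_)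
    (fun i j hij hsim => ?_) k⟩
  · by_contra hSL
    exact hcon (Sum.inl i) ⟨hG i, p, hpp, hNp, L, iF, iN, hL, A i, B i, hD i, hj i, hSL⟩
  · exact hcon (Sum.inr ⟨(i, j), hij⟩) ⟨hG i, hG j, p, hpp, hNp, L, iF, iN, hL, A i, B i, A j,
      B j, hD i, hD j, hj i, hj j, hsim⟩

end Pool.Agent.Q170.MT
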