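import Mathlib

/-!
Subgroups of products of groups `SL₂` over the field with `p` elements (helper file).
-/

set_option autoImplicit false

namespace Pool.Agent.Q170.MT

open Matrix

section gen
variable {R : Type} [CommRing R]

/-- upper triangular matrices -/
def up (x : R) : SpecialLinearGroup (Fin 2) R := ⟨!![1, x; 0, 1], by
  rw [Matrix.det_fin_two_of]; ring⟩

/-- lower triangular matrices -/
def lo (x : R) : SpecialLinearGroup (Fin 2) R := ⟨!![1, 0; x, 1], by
  rw [Matrix.det_fin_two_of]; ring⟩

theorem ext2 {g h : SpecialLinearGroup (Fin 2) R} (h00 : g 0 0 = h 0 0) (h01 : g 0 1 = h 0 1)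
    (h10 : g 1 0 = h 1 0) (h11 : g 1 1 = h 1 1) : g = h := by
  apply Subtype.ext
  ext i j
  fin_cases i <;> fin_cases j
  · exact h00
  · exact h01
  · exact h10
  · exact h11

theorem mul2 (g h : SpecialLinearGroup (Fin 2) R) (i j : Fin 2) :
    (g * h) i j = g i 0 * h 0 j + g i 1 * h 1 j := by
  show (g.1 * h.1) i j = _
  rw [Matrix.mul_apply, Fin.sum_univ_two]

theorem up_mul (x y : R) : up x * up y = up (x + y) := by
  apply ext2 <;> rw [mul2] <;> simp [up, add_comm]

theorem lo_mul (x y : R) : lo x * lo y = lo (x + y) := by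
  apply ext2 <;> rw [mul2] <;> simp [lo]

theorem up_zero : up (0 : R) = 1 := by
  apply ext2 <;> simp [up]

theorem lo_zero : lo (0 : R) = 1 := by
  apply ext2 <;> simp [lo]

theorem up_inv (x : R) : (up x)⁻¹ = up (-x) := by
  rw [inv_eq_iff_mul_eq_one, up_mul, add_neg_cancel, up_zero]

theorem lo_inv (x : R) : (lo x)⁻¹ = lo (-x) := by
  rw [inv_eq_iff_mul_eq_one, lo_mul, add_neg_cancel, lo_zero]

theorem up_pow (x : R) (n : ℕ) : up x ^ n = up (n * x) := by
  induction n with
  | zero => rw [pow_zero, Nat.cast_zero, zero_mul, up_zero]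
  | succ n ih =>
    rw [pow_succ, ih, up_mul]
    congr 1
    push_cast
    ring

theorem lo_pow (x : R) (n : ℕ) : lo x ^ n = lo (n * x) := by
  induction n with
  | zero => rw [pow_zero, Nat.cast_zero, zero_mul, lo_zero]
  | succ n ih =>
    rw [pow_succ, ih, lo_mul]
    congr 1
    push_cast
    ring

/-- the matrix of the rotation -/
def wm : SpecialLinearGroup (Fin 2) R := ⟨!![0, 1; -1, 0], by
  rw [Matrix.det_fin_two_of]; ring⟩

theorem wm_up (x : R) : wm * up x = lo (-x) * wm := by
  apply ext2 <;> rw [mul2, mul2] <;> simp [up, lo, wm]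

theorem wm_lo (x : R) : wm * lo x = up (-x) * wm := by
  apply ext2 <;> rw [mul2, mul2] <;> simp [up, lo, wm]

end gen

section fld
variable {F : Type} [Field F]

/-- the elementary matrices generate -/
theorem gen_top (H : Subgroup (SpecialLinearGroup (Fin 2) F)) (hu : ∀ x, up x ∈ H)
    (hl : ∀ x, lo x ∈ H) : H = ⊤ := by
  have key : ∀ g : SpecialLinearGroup (Fin 2) F, g 1 0 ≠ 0 → g ∈ H := by
    intro g hc
    have hdet : g 0 0 * g 1 1 - g 0 1 * g 1 0 = 1 := by
      have := g.2
      rwa [Matrix.det_fin_two] at this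
    have e : g = up ((g 0 0 - 1) / g 1 0) * lo (g 1 0) * up ((g 1 1 - 1) / g 1 0) := by
      apply ext2
      · rw [mul2, mul2, mul2]
        simp only [up, lo, of_apply, cons_val', cons_val_zero,
          cons_val_one, cons_val_fin_one, empty_val']
        field_simp
        ring
      · rw [mul2, mul2, mul2]
        simp only [up, lo, of_apply, cons_val', cons_val_zero,
          cons_val_one, cons_val_fin_one, empty_val']
        field_simp
        linear_combination -hdet
      · rw [mul2, mul2, mul2]
        simp only [up, lo, of_apply, cons_val', cons_val_zero,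
          cons_val_one, cons_val_fin_one, empty_val']
        ring
      · rw [mul2, mul2, mul2]
        simp only [up, lo, of_apply, cons_val', cons_val_zero,
          cons_val_one, cons_val_fin_one, empty_val']
        field_simp
        ring
    rw [e]
    exact H.mul_mem (H.mul_mem (hu _) (hl _)) (hu _)
  rw [eq_top_iff]
  intro g _
  by_cases hc : g 1 0 = 0
  · have hdet : g 0 0 * g 1 1 - g 0 1 * g 1 0 = 1 := by
      have := g.2
      rwa [Matrix.det_fin_two] at this
    have hd : g 1 1 ≠ 0 := by
      intro h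
      rw [hc, h, mul_zero, mul_zero, sub_zero] at hdet
      exact zero_ne_one hdet
    have h1 : g * lo 1 ∈ H := by
      apply key
      rw [mul2, hc]
      simp only [lo, of_apply, cons_val', cons_val_zero,
          cons_val_one, cons_val_fin_one, empty_val']
      rw [zero_mul, zero_add, mul_one]
      exact hd
    have h2 := H.mul_mem h1 (H.inv_mem (hl 1))
    rwa [mul_inv_cancel_right] at h2
  · exact key g hc

/-- the commutators generate, when four and one are different -/
theorem perf (h2 : (2 : F) ≠ 0) (h3 : (3 : F) ≠ 0) (H : Subgroup (SpecialLinearGroup (Fin 2) F))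
    (hH : ∀ g h, g * h * g⁻¹ * h⁻¹ ∈ H) : H = ⊤ := by
  set t : SpecialLinearGroup (Fin 2) F := ⟨!![2, 0; 0, 2⁻¹], by
    rw [Matrix.det_fin_two_of, mul_inv_cancel₀ h2]; ring⟩ with ht
  have hu : ∀ x : F, t * up x = up (4 * x) * t := by
    intro x
    apply ext2 <;> rw [mul2, mul2] <;> simp only [ht, up, of_apply,
      cons_val', cons_val_zero, cons_val_one, cons_val_fin_one, empty_val'] <;> field_simp <;>
      ring
  have hl : ∀ x : F, t * lo x = lo (x / 4) * t := by
    intro x
    have h4 : (4 : F) ≠ 0 := by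
      have : (4 : F) = 2 * 2 := by norm_num
      rw [this]
      exact mul_ne_zero h2 h2
    apply ext2 <;> rw [mul2, mul2] <;> simp only [ht, lo, of_apply,
      cons_val', cons_val_zero, cons_val_one, cons_val_fin_one, empty_val'] <;> field_simp <;>
      ring
  apply gen_top
  · intro x
    have h := hH t (up (x / 3))
    rw [hu, mul_inv_cancel_right, up_inv, up_mul] at h
    have e : 4 * (x / 3) + -(x / 3) = x := by field_simp; ring
    rwa [e] at h
  · intro x
    have h4 : (4 : F) ≠ 0 := by
      have : (4 : F) = 2 * 2 := by norm_num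
      rw [this]
      exact mul_ne_zero h2 h2
    have h := hH t (lo (-(4 * x) / 3))
    rw [hl, mul_inv_cancel_right, lo_inv, lo_mul] at h
    have e : -(4 * x) / 3 / 4 + -(-(4 * x) / 3) = x := by field_simp; ring
    rwa [e] at h

end fld

section pr
variable {p : ℕ} [Fact p.Prime]

/-- a normal subgroup with an element of order `p` -/
theorem norm_top (N : Subgroup (SpecialLinearGroup (Fin 2) (ZMod p)))
    (hN : ∀ g, ∀ n ∈ N, g * n * g⁻¹ ∈ N) {u : SpecialLinearGroup (Fin 2) (ZMod p)} (hu : u ∈ N)
    (hup : u ^ p = 1) (hu1 : u ≠ 1) : N = ⊤ := by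
  have hpp : p.Prime := Fact.out
  have h_up : ∀ b : ZMod p, b ≠ 0 → up b ∈ N → ∀ x, up x ∈ N := by
    intro b hb h x
    have h1 := N.pow_mem h (x / b).val
    rw [up_pow, ZMod.natCast_val, ZMod.cast_id', id, div_mul_cancel₀ _ hb] at h1
    exact h1
  have h_lo : ∀ b : ZMod p, b ≠ 0 → lo b ∈ N → ∀ x, lo x ∈ N := by
    intro b hb h x
    have h1 := N.pow_mem h (x / b).val
    rw [lo_pow, ZMod.natCast_val, ZMod.cast_id', id, div_mul_cancel₀ _ hb] at h1
    exact h1
  have fin_up : ∀ b : ZMod p, b ≠ 0 → up b ∈ N → N = ⊤ := by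
    intro b hb h
    have h1 := h_up b hb h
    refine gen_top N h1 fun x => ?_
    have h2 := hN wm _ (h1 (-x))
    rwa [wm_up, mul_inv_cancel_right, neg_neg] at h2
  have fin_lo : ∀ b : ZMod p, b ≠ 0 → lo b ∈ N → N = ⊤ := by
    intro b hb h
    have h1 := h_lo b hb h
    refine gen_top N (fun x => ?_) h1
    have h2 := hN wm _ (h1 (-x))
    rwa [wm_lo, mul_inv_cancel_right, neg_neg] at h2
  -- the matrix `u - 1`
  set M : Matrix (Fin 2) (Fin 2) (ZMod p) := u.1 - 1 with hM
  have hMp : M ^ p = 0 := by
    have h1 : (u.1 : Matrix (Fin 2) (Fin 2) (ZMod p)) ^ p = 1 := by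
      have := congrArg Subtype.val hup
      simpa using this
    have : CharP (Matrix (Fin 2) (Fin 2) (ZMod p)) p := inferInstance
    rw [hM, sub_pow_char_of_commute _ (Commute.one_right _), h1, one_pow, sub_self]
  have hM0 : M ≠ 0 := by
    intro h
    apply hu1
    apply Subtype.ext
    rw [hM, sub_eq_zero] at h
    rw [h]
    rfl
  have hdet : M.det = 0 := by
    have h1 := congrArg Matrix.det hMp
    rw [Matrix.det_pow, Matrix.det_zero] at h1
    exact (pow_eq_zero_iff hpp.ne_zero).1 h1
  have hsq : M * M = (M 0 0 + M 1 1) • M := by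
    rw [Matrix.det_fin_two] at hdet
    ext i j
    rw [Matrix.mul_apply, Fin.sum_univ_two, Matrix.smul_apply, smul_eq_mul]
    fin_cases i <;> fin_cases j
    · show M 0 0 * M 0 0 + M 0 1 * M 1 0 = (M 0 0 + M 1 1) * M 0 0
      linear_combination -hdet
    · show M 0 0 * M 0 1 + M 0 1 * M 1 1 = (M 0 0 + M 1 1) * M 0 1
      ring
    · show M 1 0 * M 0 0 + M 1 1 * M 1 0 = (M 0 0 + M 1 1) * M 1 0
      ring
    · show M 1 0 * M 0 1 + M 1 1 * M 1 1 = (M 0 0 + M 1 1) * M 1 1
      linear_combination -hdet
  have hpow : ∀ n : ℕ, M ^ (n + 1) = (M 0 0 + M 1 1) ^ n • M := by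
    intro n
    induction n with
    | zero => rw [zero_add, pow_one, pow_zero, one_smul]
    | succ n ih => rw [pow_succ, ih, smul_mul_assoc, hsq, smul_smul, pow_succ]
  have htr : M 0 0 + M 1 1 = 0 := by
    have h1 := hpow (p - 1)
    rw [Nat.sub_add_cancel hpp.one_le, hMp] at h1
    rcases smul_eq_zero.1 h1.symm with h | h
    · exact (pow_eq_zero_iff (by have := hpp.two_le; omega)).1 h
    · exact absurd h hM0
  have e00 : u 0 0 = 1 + M 0 0 := by rw [hM, Matrix.sub_apply, Matrix.one_apply_eq]; ring
  have e01 : u 0 1 = M 0 1 := by rw [hM, Matrix.sub_apply, Matrix.one_apply_ne (by decide)]; ring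
  have e10 : u 1 0 = M 1 0 := by rw [hM, Matrix.sub_apply, Matrix.one_apply_ne (by decide)]; ring
  have e11 : u 1 1 = 1 - M 0 0 := by
    have : M 1 1 = u 1 1 - 1 := by rw [hM, Matrix.sub_apply, Matrix.one_apply_eq]
    linear_combination htr - this
  rw [Matrix.det_fin_two] at hdet
  by_cases hc : M 1 0 = 0
  · have ha : M 0 0 = 0 := by
      have h1 : M 0 0 * M 0 0 = 0 := by
        rw [hc] at hdet
        linear_combination -hdet + M 0 0 * htr
      exact mul_self_eq_zero.1 h1
    have hb : M 0 1 ≠ 0 := by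
      intro hb
      apply hM0
      ext i j
      fin_cases i <;> fin_cases j
      · exact ha
      · exact hb
      · exact hc
      · show M 1 1 = 0
        linear_combination htr - ha
    apply fin_up _ hb
    have e : u = up (M 0 1) := by
      apply ext2
      · rw [e00, ha]; simp [up]
      · rw [e01]; simp [up]
      · rw [e10, hc]; simp [up]
      · rw [e11, ha]; simp [up]
    rwa [← e]
  · apply fin_lo _ hc
    have h1 := hN (up (-(M 0 0) / M 1 0)) u hu
    have e : up (-(M 0 0) / M 1 0) * u * (up (-(M 0 0) / M 1 0))⁻¹ = lo (M 1 0) := by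
      rw [mul_inv_eq_iff_eq_mul]
      have hd : M 0 0 * M 0 0 + M 0 1 * M 1 0 = 0 := by
        linear_combination -hdet + M 0 0 * htr
      apply ext2
      · rw [mul2, mul2, e00, e10]
        simp only [up, lo, of_apply, cons_val', cons_val_zero,
          cons_val_one, cons_val_fin_one, empty_val']
        field_simp
        ring
      · rw [mul2, mul2, e01, e11]
        simp only [up, lo, of_apply, cons_val', cons_val_zero,
          cons_val_one, cons_val_fin_one, empty_val']
        field_simp
        linear_combination hd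
      · rw [mul2, mul2, e00, e10]
        simp only [up, lo, of_apply, cons_val', cons_val_zero,
          cons_val_one, cons_val_fin_one, empty_val']
        ring
      · rw [mul2, mul2, e01, e11]
        simp only [up, lo, of_apply, cons_val', cons_val_zero,
          cons_val_one, cons_val_fin_one, empty_val']
        field_simp
        ring
    rwa [e] at h1

end pr

section prod
variable {G : Type} [Group G] {ι : Type} [Fintype ι] [DecidableEq ι]

/-- subgroups of a power of a perfect group -/
theorem single_mem (hG : ∀ K : Subgroup G, (∀ g h, g * h * g⁻¹ * h⁻¹ ∈ K) → K = ⊤)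
    (H : Subgroup (ι → G)) (h1 : ∀ i g, ∃ h ∈ H, h i = g)
    (h2 : ∀ i j, i ≠ j → ∀ g, ∃ h ∈ H, h i = g ∧ h j = 1) (i : ι) (g : G) :
    Pi.mulSingle i g ∈ H := by
  have key : ∀ J : Finset ι, i ∉ J → ∀ g, ∃ h ∈ H, h i = g ∧ ∀ j ∈ J, h j = 1 := by
    intro J
    induction J using Finset.induction_on with
    | empty =>
      intro _ g
      obtain ⟨h, hh, hg⟩ := h1 i g
      exact ⟨h, hh, hg, fun j hj => absurd hj (Finset.notMem_empty j)⟩
    | insert j J hj ih =>
      intro hi g
      have hij : i ≠ j := fun h => hi (h ▸ Finset.mem_insert_self _ _)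
      have hiJ : i ∉ J := fun h => hi (Finset.mem_insert_of_mem h)
      set K : Subgroup G :=
        { carrier := {g | ∃ h ∈ H, h i = g ∧ ∀ l ∈ insert j J, h l = 1}
          mul_mem' := by
            rintro a b ⟨x, hx, rfl, hx2⟩ ⟨y, hy, rfl, hy2⟩
            exact ⟨x * y, H.mul_mem hx hy, rfl, fun l hl => by
              rw [Pi.mul_apply, hx2 l hl, hy2 l hl, one_mul]⟩
          one_mem' := ⟨1, H.one_mem, rfl, fun _ _ => rfl⟩
          inv_mem' := by
            rintro a ⟨x, hx, rfl, hx2⟩
            exact ⟨x⁻¹, H.inv_mem hx, rfl, fun l hl => by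
              rw [Pi.inv_apply, hx2 l hl, inv_one]⟩ } with hK
      have hKt : K = ⊤ := by
        apply hG
        intro a b
        obtain ⟨x, hx, hx1, hx2⟩ := ih hiJ a
        obtain ⟨y, hy, hy1, hy2⟩ := h2 i j hij b
        refine ⟨x * y * x⁻¹ * y⁻¹, H.mul_mem (H.mul_mem (H.mul_mem hx hy) (H.inv_mem hx))
          (H.inv_mem hy), ?_, ?_⟩
        · simp only [Pi.mul_apply, Pi.inv_apply, hx1, hy1]
        · intro l hl
          rcases Finset.mem_insert.1 hl with rfl | hl
          · simp only [Pi.mul_apply, Pi.inv_apply, hy2, mul_one, inv_one, mul_inv_cancel]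
          · simp only [Pi.mul_apply, Pi.inv_apply, hx2 l hl, one_mul, inv_one, mul_one,
              mul_inv_cancel]
      have : g ∈ K := by rw [hKt]; exact Subgroup.mem_top g
      exact this
  obtain ⟨h, hh, hg, hone⟩ := key (Finset.univ.erase i) (Finset.notMem_erase i _) g
  have e : Pi.mulSingle i g = h := by
    funext j
    by_cases hji : j = i
    · subst hji
      rw [Pi.mulSingle_eq_same, hg]
    · rw [Pi.mulSingle_eq_of_ne hji, hone j (Finset.mem_erase.2 ⟨hji, Finset.mem_univ j⟩)]
  rw [e]
  exact hh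

theorem all_of_single (H : Subgroup (ι → G)) (h : ∀ i g, Pi.mulSingle i g ∈ H) : H = ⊤ := by
  rw [eq_top_iff]
  intro x _
  exact Subgroup.pi_mem_of_mulSingle_mem x fun i => h i (x i)

end prod

end Pool.Agent.Q170.MT
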