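import Pool.Agent.Q170.MT.Lift

/-!
Simultaneous images of several representations (helper file).
-/

set_option autoImplicit false

namespace Pool.Agent.Q170.MT

open Matrix

section a
variable {Γ : Type} [Group Γ] {R : Type} [CommRing R]

theorem comm_one {M : Type} [CommMonoid M] (f : Γ →* M) (a b : Γ) :
    f (a * b * a⁻¹ * b⁻¹) = 1 := by
  have h1 : f a * f a⁻¹ = 1 := by rw [← map_mul, mul_inv_cancel, map_one]
  have h2 : f b * f b⁻¹ = 1 := by rw [← map_mul, mul_inv_cancel, map_one]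
  rw [map_mul, map_mul, map_mul]
  calc f a * f b * f a⁻¹ * f b⁻¹ = (f a * f a⁻¹) * (f b * f b⁻¹) := by
        rw [mul_assoc, mul_assoc, mul_assoc, mul_left_comm (f b)]
    _ = 1 := by rw [h1, h2, one_mul]

theorem inv_val (f : Γ →* MR R) {σ : Γ} {g : SR R} (h : f σ = g.1) : f σ⁻¹ = (g⁻¹).1 := by
  have h1 : f σ⁻¹ * f σ = 1 := by rw [← map_mul, inv_mul_cancel, map_one]
  have h2 : g.1 * (g⁻¹).1 = 1 := congrArg Subtype.val (mul_inv_cancel g)
  calc f σ⁻¹ = f σ⁻¹ * (g.1 * (g⁻¹).1) := by rw [h2, mul_one]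
    _ = (f σ⁻¹ * f σ) * (g⁻¹).1 := by rw [h, mul_assoc]
    _ = (g⁻¹).1 := by rw [h1, one_mul]

theorem mul_val (f : Γ →* MR R) {σ τ : Γ} {g h : SR R} (hg : f σ = g.1) (hh : f τ = h.1) :
    f (σ * τ) = (g * h).1 := by
  rw [map_mul, hg, hh]
  rfl

theorem comm_val (f : Γ →* MR R) {σ τ : Γ} {g h : SR R} (hg : f σ = g.1) (hh : f τ = h.1) :
    f (σ * τ * σ⁻¹ * τ⁻¹) = (g * h * g⁻¹ * h⁻¹).1 :=
  mul_val f (mul_val f (mul_val f hg hh) (inv_val f hg)) (inv_val f hh)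

/-- the determinant of a representation -/
noncomputable def dt (f : Γ →* MR R) : Γ →* R := (Matrix.detMonoidHom).comp f

theorem dt_comm (f : Γ →* MR R) (a b : Γ) : (f (a * b * a⁻¹ * b⁻¹)).det = 1 :=
  comm_one (dt f) a b

end a

section b
variable {p : ℕ} [Fact p.Prime] {Γ : Type} [Group Γ]

theorem two_ne (hp5 : 5 ≤ p) : (2 : ZMod p) ≠ 0 := by
  intro h
  have h1 : ((2 : ℕ) : ZMod p) = 0 := by exact_mod_cast h
  rw [ZMod.natCast_eq_zero_iff] at h1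
  have := Nat.le_of_dvd (by norm_num) h1
  omega

theorem three_ne (hp5 : 5 ≤ p) : (3 : ZMod p) ≠ 0 := by
  intro h
  have h1 : ((3 : ℕ) : ZMod p) = 0 := by exact_mod_cast h
  rw [ZMod.natCast_eq_zero_iff] at h1
  have := Nat.le_of_dvd (by norm_num) h1
  omega

/-- one direction -/
theorem dir1 (f g : Γ →* MR (ZMod p)) (hf : ∀ x : SR (ZMod p), ∃ σ, f σ = x.1)
    (h : ∃ σ, g σ = 1 ∧ f σ ≠ 1 ∧ f σ ^ p = 1) (x : SR (ZMod p)) : ∃ σ, f σ = x.1 ∧ g σ = 1 := by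
  have hp : p.Prime := Fact.out
  set N : Subgroup (SR (ZMod p)) :=
    { carrier := {x | ∃ σ, f σ = x.1 ∧ g σ = 1}
      mul_mem' := by
        rintro a b ⟨σ, h1, h2⟩ ⟨τ, h3, h4⟩
        exact ⟨σ * τ, mul_val f h1 h3, by rw [map_mul, h2, h4, one_mul]⟩
      one_mem' := ⟨1, map_one f, map_one g⟩
      inv_mem' := by
        rintro a ⟨σ, h1, h2⟩
        refine ⟨σ⁻¹, inv_val f h1, ?_⟩
        have := inv_val g (g := 1) h2
        rw [this, inv_one]
        rfl } with hN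
  obtain ⟨σ, h1, h2, h3⟩ := h
  have hd : (f σ).det = 1 := by
    have h4 := congrArg Matrix.det h3
    rw [Matrix.det_pow, Matrix.det_one, ZMod.pow_card] at h4
    exact h4
  set u : SR (ZMod p) := ⟨f σ, hd⟩ with hu
  have huN : u ∈ N := ⟨σ, rfl, h1⟩
  have hup : u ^ p = 1 := by
    apply Subtype.ext
    rw [coe_pow2]
    exact h3
  have hu1 : u ≠ 1 := fun h4 => h2 (congrArg Subtype.val h4)
  have hT : N = ⊤ := by
    refine norm_top N ?_ huN hup hu1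
    rintro a b ⟨τ, h4, h5⟩
    obtain ⟨υ, h6⟩ := hf a
    refine ⟨υ * τ * υ⁻¹, mul_val f (mul_val f h6 h4) (inv_val f h6), ?_⟩
    rw [map_mul, map_mul, h5, mul_one, ← map_mul, mul_inv_cancel, map_one]
  have : x ∈ N := by rw [hT]; exact Subgroup.mem_top x
  exact this

/-- the other direction -/
theorem dir2 (hp5 : 5 ≤ p) (f g : Γ →* MR (ZMod p)) (hg : ∀ x : SR (ZMod p), ∃ σ, g σ = x.1)
    (h : ∀ x : SR (ZMod p), ∃ σ, f σ = x.1 ∧ g σ = 1) (x : SR (ZMod p)) :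
    ∃ σ, g σ = x.1 ∧ f σ = 1 := by
  set N : Subgroup (SR (ZMod p)) :=
    { carrier := {x | ∃ σ, g σ = x.1 ∧ f σ = 1}
      mul_mem' := by
        rintro a b ⟨σ, h1, h2⟩ ⟨τ, h3, h4⟩
        exact ⟨σ * τ, mul_val g h1 h3, by rw [map_mul, h2, h4, one_mul]⟩
      one_mem' := ⟨1, map_one g, map_one f⟩
      inv_mem' := by
        rintro a ⟨σ, h1, h2⟩
        refine ⟨σ⁻¹, inv_val g h1, ?_⟩
        have := inv_val f (g := 1) h2
        rw [this, inv_one]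
        rfl } with hN
  have hT : N = ⊤ := by
    refine perf (two_ne hp5) (three_ne hp5) N fun a b => ?_
    obtain ⟨σ, h1⟩ := hg a
    obtain ⟨τ, h2⟩ := hg b
    set c : SR (ZMod p) := ⟨f (σ * τ * σ⁻¹ * τ⁻¹), dt_comm f σ τ⟩ with hc
    obtain ⟨υ, h3, h4⟩ := h c
    refine ⟨σ * τ * σ⁻¹ * τ⁻¹ * υ⁻¹, ?_, ?_⟩
    · have h5 := inv_val g (g := 1) h4
      have h6 := mul_val g (comm_val g h1 h2) h5
      rwa [inv_one, mul_one] at h6
    · have h5 := inv_val f h3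
      have h6 := mul_val f (σ := σ * τ * σ⁻¹ * τ⁻¹) (g := c) rfl h5
      have h7 : c * c⁻¹ = 1 := mul_inv_cancel c
      rw [h7] at h6
      exact h6
  have : x ∈ N := by rw [hT]; exact Subgroup.mem_top x
  exact this

variable {R : Type} [CommRing R] {ι : Type} [Fintype ι] [DecidableEq ι]

/-- **The simultaneous image of several representations.** -/
theorem main_group (π : R →+* ZMod p) (hπ : ∀ x, π x = 0 → (p : R) ∣ x) {k : ℕ}
    (hk : ((p ^ k : ℕ) : R) = 0) (hp5 : 5 ≤ p) (ρ : ι → Γ →* MR R)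
    (h1 : ∀ i, ∀ x : SR (ZMod p), ∃ σ, (ρ i σ).map π = x.1)
    (h2 : ∀ i j, i ≠ j → (∃ σ, (ρ i σ).map π = 1 ∧ (ρ j σ).map π ≠ 1 ∧
      ((ρ j σ).map π) ^ p = 1) ∨ (∃ σ, (ρ j σ).map π = 1 ∧ (ρ i σ).map π ≠ 1 ∧
      ((ρ i σ).map π) ^ p = 1)) (x : ι → SR R) : ∃ σ, ∀ i, ρ i σ = (x i).1 := by
  -- the reductions
  set ρb : ι → Γ →* MR (ZMod p) := fun i => (π.mapMatrix (m := Fin 2)).toMonoidHom.comp (ρ i)
    with hρb
  have hb : ∀ i σ, ρb i σ = (ρ i σ).map π := fun _ _ => rfl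
  have two : ∀ i j, i ≠ j → ∀ y : SR (ZMod p), ∃ σ, ρb i σ = y.1 ∧ ρb j σ = 1 := by
    intro i j hij
    rcases h2 i j hij with h | h
    · have h3 := dir1 (ρb j) (ρb i) (h1 j) h
      exact fun y => dir2 hp5 (ρb j) (ρb i) (h1 i) h3 y
    · exact fun y => dir1 (ρb i) (ρb j) (h1 i) h y
  -- the elements with determinant one
  set Γ₁ : Subgroup Γ :=
    { carrier := {σ | ∀ i, (ρ i σ).det = 1}
      mul_mem' := by
        intro a b ha hb i
        rw [map_mul, Matrix.det_mul, ha i, hb i, one_mul]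
      one_mem' := by
        intro i
        rw [map_one, Matrix.det_one]
      inv_mem' := by
        intro a ha i
        have h3 : (ρ i a).det * (ρ i a⁻¹).det = 1 := by
          rw [← Matrix.det_mul, ← map_mul, mul_inv_cancel, map_one, Matrix.det_one]
        rwa [ha i, one_mul] at h3 } with hΓ₁
  have hcm : ∀ σ τ : Γ, σ * τ * σ⁻¹ * τ⁻¹ ∈ Γ₁ := fun σ τ i => dt_comm (ρ i) σ τ
  set r : ι → Γ₁ →* SR R := fun i =>
    { toFun := fun σ => ⟨ρ i σ.1, σ.2 i⟩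
      map_one' := Subtype.ext (map_one (ρ i))
      map_mul' := fun a b => Subtype.ext (map_mul (ρ i) a.1 b.1) } with hr
  have hrb : ∀ i (σ : Γ₁), (SpecialLinearGroup.map π (r i σ)).1 = ρb i σ.1 := fun _ _ => rfl
  set Hb : Subgroup (ι → SR (ZMod p)) :=
    (MonoidHom.pi (fun i => (SpecialLinearGroup.map π).comp (r i))).range with hHb
  have hHb2 : ∀ y, y ∈ Hb ↔ ∃ σ : Γ₁, ∀ i, ρb i σ.1 = (y i).1 := by
    intro y
    constructor
    · rintro ⟨σ, rfl⟩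
      exact ⟨σ, fun i => rfl⟩
    · rintro ⟨σ, hσ⟩
      refine ⟨σ, ?_⟩
      funext i
      exact Subtype.ext (hσ i)
  have hperf : ∀ K : Subgroup (SR (ZMod p)), (∀ g h, g * h * g⁻¹ * h⁻¹ ∈ K) → K = ⊤ :=
    fun K hK => perf (two_ne hp5) (three_ne hp5) K hK
  have hTop : Hb = ⊤ := by
    refine all_of_single Hb (single_mem hperf Hb ?_ ?_)
    · intro i g
      have hK : (Hb.map (Pi.evalMonoidHom (fun _ => SR (ZMod p)) i)) = ⊤ := by
        refine hperf _ fun a b => ?_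
        obtain ⟨σ, hσ⟩ := h1 i a
        obtain ⟨τ, hτ⟩ := h1 i b
        refine ⟨fun l => SpecialLinearGroup.map π (r l ⟨_, hcm σ τ⟩), ?_, ?_⟩
        · exact (hHb2 _).2 ⟨⟨_, hcm σ τ⟩, fun l => rfl⟩
        · exact Subtype.ext (comm_val (ρb i) hσ hτ)
      have h3 : g ∈ (Hb.map (Pi.evalMonoidHom (fun _ => SR (ZMod p)) i)) := by
        rw [hK]; exact Subgroup.mem_top g
      obtain ⟨y, hy, hyg⟩ := h3
      exact ⟨y, hy, hyg⟩
    · intro i j hij g
      have hK : ((Hb ⊓ (Pi.evalMonoidHom (fun _ => SR (ZMod p)) j).ker).map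
          (Pi.evalMonoidHom (fun _ => SR (ZMod p)) i)) = ⊤ := by
        refine hperf _ fun a b => ?_
        obtain ⟨σ, hσ, hσ1⟩ := two i j hij a
        obtain ⟨τ, hτ, hτ1⟩ := two i j hij b
        refine ⟨fun l => SpecialLinearGroup.map π (r l ⟨_, hcm σ τ⟩), ⟨?_, ?_⟩, ?_⟩
        · exact (hHb2 _).2 ⟨⟨_, hcm σ τ⟩, fun l => rfl⟩
        · have h4 := comm_val (ρb j) (g := 1) (h := 1) hσ1 hτ1
          rw [one_mul, inv_one, one_mul, one_mul] at h4
          exact (MonoidHom.mem_ker (f := Pi.evalMonoidHom (fun _ => SR (ZMod p)) j)).2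
            (Subtype.ext h4)
        · exact Subtype.ext (comm_val (ρb i) hσ hτ)
      have h3 : g ∈ ((Hb ⊓ (Pi.evalMonoidHom (fun _ => SR (ZMod p)) j).ker).map
          (Pi.evalMonoidHom (fun _ => SR (ZMod p)) i)) := by
        rw [hK]; exact Subgroup.mem_top g
      obtain ⟨y, ⟨hy, hy1⟩, hyg⟩ := h3
      exact ⟨y, hy, hyg, hy1⟩
  have hfin : (MonoidHom.pi r).range = ⊤ := by
    refine lift_gen π hπ hk hp5 _ fun y => ?_
    have h3 : (fun i => SpecialLinearGroup.map π (y i)) ∈ Hb := by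
      rw [hTop]; exact Subgroup.mem_top _
    obtain ⟨σ, hσ⟩ := (hHb2 _).1 h3
    exact ⟨_, ⟨σ, rfl⟩, fun i => Subtype.ext (hσ i)⟩
  have h4 : x ∈ (MonoidHom.pi r).range := by rw [hfin]; exact Subgroup.mem_top _
  obtain ⟨σ, hσ⟩ := h4
  refine ⟨σ.1, fun i => ?_⟩
  have h5 := congrArg Subtype.val (congrFun hσ i)
  exact h5

end b

end Pool.Agent.Q170.MT
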