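import Pool.Agent.Q170.MT.Grp2

/-!
Commutators and the simultaneous image of several representations (helper file).
-/

set_option autoImplicit false

namespace Pool.Agent.Q170.MT

open Matrix

/-- the commutator subgroup -/
def CC (Γ : Type) [Group Γ] : Subgroup Γ :=
  Subgroup.closure {g | ∃ a b, g = a * b * a⁻¹ * b⁻¹}

section b
variable {p : ℕ} [Fact p.Prime] {Γ : Type} [Group Γ]
variable {R : Type} [CommRing R] {ι : Type} [Fintype ι] [DecidableEq ι]

theorem map_up (π : R →+* ZMod p) (x : R) : SpecialLinearGroup.map π (up x) = up (π x) := by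
  apply ext2
  · show π 1 = 1
    exact map_one π
  · rfl
  · show π 0 = 0
    exact map_zero π
  · show π 1 = 1
    exact map_one π

theorem map_lo (π : R →+* ZMod p) (x : R) : SpecialLinearGroup.map π (lo x) = lo (π x) := by
  apply ext2
  · show π 1 = 1
    exact map_one π
  · show π 0 = 0
    exact map_zero π
  · rfl
  · show π 1 = 1
    exact map_one π

theorem red_surj (π : R →+* ZMod p) (hπs : Function.Surjective π) :
    Function.Surjective (SpecialLinearGroup.map π : SR R →* SR (ZMod p)) := by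
  rw [← MonoidHom.range_eq_top]
  apply gen_top
  · intro x
    obtain ⟨y, rfl⟩ := hπs x
    exact ⟨up y, map_up π y⟩
  · intro x
    obtain ⟨y, rfl⟩ := hπs x
    exact ⟨lo y, map_lo π y⟩

/-- Subgroups which contain the commutators with one nontrivial component. -/
theorem perf_prod (π : R →+* ZMod p) (hπ : ∀ x, π x = 0 → (p : R) ∣ x)
    (hπs : Function.Surjective π) {k : ℕ}
    (hk : ((p ^ k : ℕ) : R) = 0) (hp5 : 5 ≤ p) (H : Subgroup (ι → SR R))
    (hH : ∀ (i : ι) (a b : SR R), Pi.mulSingle i (a * b * a⁻¹ * b⁻¹) ∈ H) : H = ⊤ := by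
  refine lift_gen π hπ hk hp5 H fun x => ?_
  set f : (ι → SR R) →* (ι → SR (ZMod p)) :=
    MonoidHom.pi (fun i => (SpecialLinearGroup.map π).comp (Pi.evalMonoidHom _ i)) with hf
  have hfx : ∀ y i, f y i = SpecialLinearGroup.map π (y i) := fun _ _ => rfl
  have hT : H.map f = ⊤ := by
    refine all_of_single _ fun i g => ?_
    have hK : (H.map f).comap (MonoidHom.mulSingle (fun _ : ι => SR (ZMod p)) i) = ⊤ := by
      refine perf (two_ne hp5) (three_ne hp5) _ fun a b => ?_
      obtain ⟨a', rfl⟩ := red_surj π hπs a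
      obtain ⟨b', rfl⟩ := red_surj π hπs b
      refine ⟨_, hH i a' b', ?_⟩
      funext j
      rw [hfx]
      show _ = (Pi.mulSingle i _ : ι → SR (ZMod p)) j
      by_cases hj : j = i
      · subst hj
        rw [Pi.mulSingle_eq_same, Pi.mulSingle_eq_same]
        simp only [map_mul, map_inv]
      · rw [Pi.mulSingle_eq_of_ne hj, Pi.mulSingle_eq_of_ne hj, map_one]
    have : g ∈ (H.map f).comap (MonoidHom.mulSingle (fun _ : ι => SR (ZMod p)) i) := by
      rw [hK]; exact Subgroup.mem_top g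
    exact this
  have h1 : f x ∈ H.map f := by rw [hT]; exact Subgroup.mem_top _
  obtain ⟨h, hh, hx⟩ := h1
  exact ⟨h, hh, fun i => congrFun hx i⟩

/-- the elements which are realised by the commutator subgroup -/
theorem comm_all (π : R →+* ZMod p) (hπ : ∀ x, π x = 0 → (p : R) ∣ x)
    (hπs : Function.Surjective π) {k : ℕ}
    (hk : ((p ^ k : ℕ) : R) = 0) (hp5 : 5 ≤ p) (ρ : ι → Γ →* MR R)
    (h : ∀ x : ι → SR R, ∃ σ, ∀ i, ρ i σ = (x i).1) (x : ι → SR R) :
    ∃ σ ∈ CC Γ, ∀ i, ρ i σ = (x i).1 := by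
  set H : Subgroup (ι → SR R) :=
    { carrier := {x | ∃ σ ∈ CC Γ, ∀ i, ρ i σ = (x i).1}
      mul_mem' := by
        rintro a b ⟨σ, hσ, h1⟩ ⟨τ, hτ, h2⟩
        exact ⟨σ * τ, mul_mem hσ hτ, fun i => mul_val (ρ i) (h1 i) (h2 i)⟩
      one_mem' := ⟨1, one_mem _, fun i => map_one (ρ i)⟩
      inv_mem' := by
        rintro a ⟨σ, hσ, h1⟩
        exact ⟨σ⁻¹, inv_mem hσ, fun i => inv_val (ρ i) (h1 i)⟩ } with hHd
  have hT : H = ⊤ := by
    refine perf_prod π hπ hπs hk hp5 H fun i a b => ?_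
    obtain ⟨σ, hσ⟩ := h (Pi.mulSingle i a)
    obtain ⟨τ, hτ⟩ := h (Pi.mulSingle i b)
    refine ⟨_, Subgroup.subset_closure ⟨σ, τ, rfl⟩, fun j => ?_⟩
    have h3 := comm_val (ρ j) (hσ j) (hτ j)
    rw [h3]
    congr 1
    by_cases hj : j = i
    · subst hj
      rw [Pi.mulSingle_eq_same, Pi.mulSingle_eq_same, Pi.mulSingle_eq_same]
    · rw [Pi.mulSingle_eq_of_ne hj, Pi.mulSingle_eq_of_ne hj, Pi.mulSingle_eq_of_ne hj]
      show (1 : SR R) * 1 * 1⁻¹ * 1⁻¹ = 1
      rw [inv_one, mul_one, mul_one, mul_one]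
  have : x ∈ H := by rw [hT]; exact Subgroup.mem_top x
  exact this

theorem det_comm (f : Γ →* MR R) {σ : Γ} (hσ : σ ∈ CC Γ) : (f σ).det = 1 := by
  unfold CC at hσ
  induction hσ using Subgroup.closure_induction with
  | mem x hx =>
    obtain ⟨a, b, rfl⟩ := hx
    exact dt_comm f a b
  | one => rw [map_one, Matrix.det_one]
  | mul x y _ _ h1 h2 => rw [map_mul, Matrix.det_mul, h1, h2, one_mul]
  | inv x _ h1 =>
    have h2 : (f x).det * (f x⁻¹).det = 1 := by
      rw [← Matrix.det_mul, ← map_mul, mul_inv_cancel, map_one, Matrix.det_one]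
    rwa [h1, one_mul] at h2

end b

end Pool.Agent.Q170.MT
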