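import Pool.Agent.Q170.MT.Grp

/-!
Subgroups of products of groups `SL₂(ℤ/p^k)` (helper file).
-/

set_option autoImplicit false

namespace Pool.Agent.Q170.MT

open Matrix

section ring
variable {M : Type} [Ring M]

theorem cdl (n : ℕ) {A : M} (B : M) (h : (n : M) ∣ A) : (n : M) ∣ B * A := by
  obtain ⟨C, rfl⟩ := h
  exact ⟨B * C, by rw [← mul_assoc, ← mul_assoc, Nat.cast_comm]⟩

theorem cdm (m n : ℕ) {A B : M} (h : (m : M) ∣ A) (h' : (n : M) ∣ B) :
    ((m * n : ℕ) : M) ∣ A * B := by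
  obtain ⟨C, rfl⟩ := h
  obtain ⟨D, rfl⟩ := h'
  exact ⟨C * D, by
    rw [Nat.cast_mul, mul_assoc, mul_assoc, ← mul_assoc C, ← Nat.cast_comm n C, mul_assoc]⟩

theorem cdv {m n : ℕ} (h : m ∣ n) {A : M} (h' : (n : M) ∣ A) : (m : M) ∣ A := by
  obtain ⟨c, rfl⟩ := h
  refine dvd_trans ⟨(c : M), by rw [Nat.cast_mul]⟩ h'

/-- the binomial formula -/
theorem bin {p : ℕ} (hp : p.Prime) (N : M) :
    ∃ G : M, (1 + N) ^ p = 1 + p * N + p * (N ^ 2 * G) + N ^ p := by
  obtain ⟨q, rfl⟩ : ∃ q, p = q + 2 := ⟨p - 2, by have := hp.two_le; omega⟩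
  refine ⟨∑ m ∈ Finset.range q, N ^ m * (((q + 2).choose (m + 2) / (q + 2) : ℕ) : M), ?_⟩
  rw [add_comm 1 N, (Commute.one_right N).add_pow, Finset.sum_range_succ,
    Finset.sum_range_succ', Finset.sum_range_succ']
  have h : ∀ m ∈ Finset.range q, N ^ (m + 1 + 1) * 1 ^ (q + 2 - (m + 1 + 1)) *
      ((q + 2).choose (m + 1 + 1) : M) =
      ((q + 2 : ℕ) : M) * (N ^ 2 * (N ^ m * (((q + 2).choose (m + 2) / (q + 2) : ℕ) : M))) := by
    intro m hm
    have h1 := hp.dvd_choose_self (k := m + 2) (by omega) (by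
      have := Finset.mem_range.1 hm
      omega)
    have h2 : (((q + 2).choose (m + 2) : ℕ) : M) = ((q + 2 : ℕ) : M) *
        (((q + 2).choose (m + 2) / (q + 2) : ℕ) : M) := by
      rw [← Nat.cast_mul, Nat.mul_div_cancel' h1]
    rw [one_pow, mul_one]
    show N ^ (m + 2) * (((q + 2).choose (m + 2) : ℕ) : M) = _
    rw [h2, ← mul_assoc (N ^ 2), ← pow_add, add_comm 2 m, ← mul_assoc, ← mul_assoc,
      Nat.cast_comm]
  rw [Finset.sum_congr rfl h, ← Finset.mul_sum, ← Finset.mul_sum]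
  simp only [one_pow, mul_one, pow_zero, Nat.choose_zero_right, Nat.cast_one,
    Nat.choose_self, zero_add, pow_one, Nat.choose_one_right]
  rw [← Nat.cast_comm (q + 2) N]
  abel

/-- powers of matrices near a unipotent matrix -/
theorem powB {p : ℕ} (hp : p.Prime) (hp5 : 5 ≤ p) {s : ℕ} {A e : M} (he : e * e = 0)
    (h : ((p ^ (s + 1) : ℕ) : M) ∣ A - 1 - ((p ^ s : ℕ) : M) * e) :
    ((p ^ (s + 2) : ℕ) : M) ∣ A ^ p - 1 - ((p ^ (s + 1) : ℕ) : M) * e := by
  obtain ⟨Y, hY⟩ := h
  set N : M := A - 1 with hN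
  have hNe : N = ((p ^ s : ℕ) : M) * e + ((p ^ (s + 1) : ℕ) : M) * Y := by
    rw [← hY]; abel
  have hA : A = 1 + N := by rw [hN]; abel
  have hNs : ((p ^ s : ℕ) : M) ∣ N := by
    rw [hNe]
    refine dvd_add (Dvd.intro _ rfl) (dvd_trans ?_ (Dvd.intro _ rfl))
    exact ⟨(p : M), by rw [pow_succ, Nat.cast_mul]⟩
  have hN2 : ((p ^ (2 * s + 1) : ℕ) : M) ∣ N ^ 2 := by
    have e1 : N ^ 2 = ((p ^ s : ℕ) : M) * e * N + ((p ^ (s + 1) : ℕ) : M) * Y * N := by
      rw [pow_two, ← add_mul, ← hNe]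
    have e2 : ((p ^ s : ℕ) : M) * e * N =
        ((p ^ s : ℕ) : M) * e * (((p ^ (s + 1) : ℕ) : M) * Y) := by
      rw [hNe, mul_add]
      have : ((p ^ s : ℕ) : M) * e * (((p ^ s : ℕ) : M) * e) = 0 := by
        rw [mul_assoc, ← mul_assoc e, ← Nat.cast_comm, mul_assoc, he, mul_zero, mul_zero]
      rw [this, zero_add]
    rw [e1, e2]
    refine dvd_add ?_ ?_
    · have h1 := cdm (p ^ s) (p ^ (s + 1)) (A := ((p ^ s : ℕ) : M) * e)
        (B := ((p ^ (s + 1) : ℕ) : M) * Y) (Dvd.intro _ rfl) (Dvd.intro _ rfl)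
      rwa [← pow_add, show s + (s + 1) = 2 * s + 1 by ring] at h1
    · have h1 := cdm (p ^ (s + 1)) (p ^ s) (A := ((p ^ (s + 1) : ℕ) : M) * Y)
        (B := N) (Dvd.intro _ rfl) hNs
      rwa [← pow_add, show s + 1 + s = 2 * s + 1 by ring] at h1
  obtain ⟨G, hG⟩ := bin hp N
  have e3 : A ^ p - 1 - ((p ^ (s + 1) : ℕ) : M) * e = ((p ^ (s + 2) : ℕ) : M) * Y +
      p * (N ^ 2 * G) + N ^ p := by
    rw [hA, hG]
    have : (p : M) * N = ((p ^ (s + 1) : ℕ) : M) * e + ((p ^ (s + 2) : ℕ) : M) * Y := by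
      rw [hNe, mul_add, ← mul_assoc, ← mul_assoc, ← Nat.cast_mul, ← Nat.cast_mul]
      congr 3 <;> ring
    rw [this]
    abel
  rw [e3]
  refine dvd_add (dvd_add (Dvd.intro _ rfl) ?_) ?_
  · have h1 := cdm p (p ^ (2 * s + 1)) (A := (p : M)) (B := N ^ 2 * G) (dvd_refl _)
      (Dvd.dvd.mul_right hN2 G)
    refine cdv ?_ h1
    rw [← pow_succ']
    exact pow_dvd_pow _ (by omega)
  · have e4 : N ^ p = N ^ 2 * (N ^ 2 * N ^ (p - 4)) := by
      rw [← pow_add, ← pow_add]
      congr 1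
      omega
    rw [e4]
    have h1 := cdm (p ^ (2 * s + 1)) (p ^ (2 * s + 1)) hN2 (Dvd.dvd.mul_right hN2 (N ^ (p - 4)))
    refine cdv ?_ h1
    rw [← pow_add]
    exact pow_dvd_pow _ (by omega)

theorem powB' {p : ℕ} (hp : p.Prime) (hp5 : 5 ≤ p) {A e : M} (he : e * e = 0)
    (h : ((p ^ 1 : ℕ) : M) ∣ A - 1 - e) (s : ℕ) :
    ((p ^ (s + 1) : ℕ) : M) ∣ A ^ (p ^ s) - 1 - ((p ^ s : ℕ) : M) * e := by
  induction s with
  | zero => simpa using h
  | succ s ih =>
    have h1 := powB hp hp5 he ih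
    rwa [← pow_mul, ← pow_succ] at h1

end ring

section lift
variable {p : ℕ} [Fact p.Prime]

/-- the elements of the kernel of the reduction -/
theorem ker_red {k : ℕ} (hk : k ≠ 0) (x : ZMod (p ^ k))
    (hx : ZMod.castHom (dvd_pow_self p hk) (ZMod p) x = 0) :
    ((p : ℕ) : ZMod (p ^ k)) ∣ x := by
  have hp : p.Prime := Fact.out
  have : NeZero (p ^ k) := ⟨pow_ne_zero _ hp.ne_zero⟩
  have h1 : x = ((x.val : ℕ) : ZMod (p ^ k)) := (ZMod.natCast_zmod_val x).symm
  rw [h1, map_natCast, ZMod.natCast_eq_zero_iff] at hx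
  obtain ⟨c, hc⟩ := hx
  rw [h1, hc, Nat.cast_mul]
  exact Dvd.intro _ rfl

/-- two by two matrices -/
abbrev MR (R : Type) : Type := Matrix (Fin 2) (Fin 2) R

/-- two by two matrices of determinant one -/
abbrev SR (R : Type) [CommRing R] : Type := SpecialLinearGroup (Fin 2) R

section ringR
variable {R : Type} [CommRing R]

theorem nat_smul (n : ℕ) (B : MR R) : (n : MR R) * B = (n : R) • B := by
  rw [Algebra.smul_def, map_natCast]

/-- divisibility of matrices by natural numbers -/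
theorem dvd_entries (n : ℕ) (A : MR R) : (n : MR R) ∣ A ↔ ∀ i j, (n : R) ∣ A i j := by
  constructor
  · rintro ⟨B, rfl⟩ i j
    rw [nat_smul]
    exact Dvd.intro _ rfl
  · intro h
    choose B hB using h
    refine ⟨Matrix.of B, ?_⟩
    rw [nat_smul]
    ext i j
    rw [Matrix.smul_apply, smul_eq_mul, Matrix.of_apply]
    exact hB i j

/-- the third direction -/
def dg (x : R) : SR R :=
  ⟨!![1 + x, -x; x, 1 - x], by rw [Matrix.det_fin_two_of]; ring⟩

theorem red_eq (π : R →+* ZMod p) (hπ : ∀ x, π x = 0 → (p : R) ∣ x) {g h : SR R}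
    (e : SpecialLinearGroup.map π g = SpecialLinearGroup.map π h) :
    ((p ^ 1 : ℕ) : MR R) ∣ g.1 - h.1 := by
  rw [pow_one, dvd_entries]
  intro i j
  apply hπ
  rw [Matrix.sub_apply, map_sub]
  have h1 := congrFun (congrFun (congrArg Subtype.val e) i) j
  exact sub_eq_zero.2 h1

theorem coe_pow2 (g : SR R) (n : ℕ) : (g ^ n).1 = g.1 ^ n := by
  induction n with
  | zero => rfl
  | succ n ih =>
    rw [pow_succ, pow_succ, ← ih]
    rfl

theorem inv_mul2 (g : SR R) : (g⁻¹).1 * g.1 = 1 := by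
  have := congrArg Subtype.val (inv_mul_cancel g)
  exact this

variable {ι : Type} [Fintype ι] [DecidableEq ι]

/-- Subgroups of a product of groups `SL₂(ℤ/p^k)` which are everything modulo `p`. -/
theorem lift_gen (π : R →+* ZMod p) (hπ : ∀ x, π x = 0 → (p : R) ∣ x) {k : ℕ}
    (hk : ((p ^ k : ℕ) : R) = 0) (hp5 : 5 ≤ p) (H : Subgroup (ι → SR R))
    (hH : ∀ x : ι → SR R, ∃ h ∈ H, ∀ i, SpecialLinearGroup.map π (h i) =
      SpecialLinearGroup.map π (x i)) :
    H = ⊤ := by
  have hp : p.Prime := Fact.out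
  have claim : ∀ s : ℕ, s ≤ k → ∀ (i : ι) (g : SR R),
      ((p ^ (k - s) : ℕ) : MR R) ∣ g.1 - 1 → Pi.mulSingle i g ∈ H := by
    intro s
    induction s with
    | zero =>
      intro _ i g hg
      rw [Nat.sub_zero] at hg
      have h0 : ((p ^ k : ℕ) : MR R) = 0 := by
        rw [← map_natCast (algebraMap R (MR R)), hk, map_zero]
      rw [h0, zero_dvd_iff, sub_eq_zero] at hg
      have : g = 1 := Subtype.ext hg
      rw [this, Pi.mulSingle_one]
      exact H.one_mem
    | succ s ih =>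
      intro hs i g hg
      have ih' := ih (by omega)
      set t := k - (s + 1) with ht
      have ht1 : k - s = t + 1 := by omega
      rw [ht1] at ih'
      -- elements near elements of `H`
      have near : ∀ h ∈ H, ∀ x : ι → SR R,
          (∀ j, ((p ^ (t + 1) : ℕ) : MR R) ∣ (x j).1 - (h j).1) → x ∈ H := by
        intro h hh x hx
        have e : x = h * (h⁻¹ * x) := by rw [mul_inv_cancel_left]
        rw [e]
        refine H.mul_mem hh (Subgroup.pi_mem_of_mulSingle_mem _ fun j => ih' j _ ?_)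
        have e2 : ((h⁻¹ * x) j).1 - 1 = ((h j)⁻¹).1 * ((x j).1 - (h j).1) := by
          rw [mul_sub, inv_mul2]
          rfl
        rw [e2]
        exact cdl _ _ (hx j)
      -- unipotent elements
      have unip : ∀ (u v : SR R) (e : MR R), e * e = 0 → u.1 = 1 + e →
          v.1 = 1 + ((p ^ t : ℕ) : MR R) * e → Pi.mulSingle i v ∈ H := by
        intro u v e he hu hv
        obtain ⟨h, hh, hx⟩ := hH (Pi.mulSingle i u)
        refine near (h ^ (p ^ t)) (H.pow_mem hh _) _ fun j => ?_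
        have h1 := red_eq π hπ (hx j)
        have e3 : ((h ^ (p ^ t)) j).1 = (h j).1 ^ (p ^ t) := by
          rw [Pi.pow_apply]
          exact coe_pow2 _ _
        rw [e3]
        by_cases hj : j = i
        · subst hj
          rw [Pi.mulSingle_eq_same, hu] at h1
          rw [Pi.mulSingle_eq_same, hv]
          have h2 := powB' hp hp5 he (A := (h j).1) (by
            rwa [← sub_sub] at h1) t
          have e4 : 1 + ((p ^ t : ℕ) : MR R) * e - (h j).1 ^ (p ^ t) =
              -((h j).1 ^ (p ^ t) - 1 - ((p ^ t : ℕ) : MR R) * e) := by abel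
          rw [e4, dvd_neg]
          exact cdv (pow_dvd_pow p le_rfl) h2
        · rw [Pi.mulSingle_eq_of_ne hj] at h1 ⊢
          have h2 := powB' hp hp5 (e := (0 : MR R)) (by rw [mul_zero]) (A := (h j).1) (by
            rw [sub_zero]
            exact h1) t
          have e4 : (1 : SR R).1 - (h j).1 ^ (p ^ t) =
              -((h j).1 ^ (p ^ t) - 1 - ((p ^ t : ℕ) : MR R) * 0) := by
            rw [mul_zero]
            show (1 : MR R) - _ = _
            abel
          rw [e4, dvd_neg]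
          exact h2
      rcases Nat.eq_zero_or_pos t with ht0 | ht0
      · obtain ⟨h, hh, hx⟩ := hH (Pi.mulSingle i g)
        refine near h hh _ fun j => ?_
        rw [ht0, zero_add]
        exact red_eq π hπ (hx j).symm
      · -- the decomposition
        obtain ⟨Y, hY⟩ := hg
        obtain ⟨q, r, hq, hr⟩ : ∃ q r : R, q = ((p ^ t : ℕ) : R) ∧ q = (p : R) * r := by
          refine ⟨((p ^ t : ℕ) : R), ((p ^ (t - 1) : ℕ) : R), rfl, ?_⟩
          rw [← Nat.cast_mul, ← pow_succ', Nat.sub_add_cancel ht0]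
        have hgY : ∀ a b, g a b = (1 : MR R) a b + q * Y a b := by
          intro a b
          have h1 : g.1 = 1 + q • Y := by
            rw [hq, ← nat_smul, ← hY]
            abel
          show g.1 a b = _
          rw [h1]
          rfl
        have g00 : g 0 0 = 1 + q * Y 0 0 := by rw [hgY, Matrix.one_apply_eq]
        have g01 : g 0 1 = q * Y 0 1 := by
          rw [hgY, Matrix.one_apply_ne (by decide), zero_add]
        have g10 : g 1 0 = q * Y 1 0 := by
          rw [hgY, Matrix.one_apply_ne (by decide), zero_add]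
        have g11 : g 1 1 = 1 + q * Y 1 1 := by rw [hgY, Matrix.one_apply_eq]
        have hdet : g 0 0 * g 1 1 - g 0 1 * g 1 0 = 1 := by
          have := g.2
          rwa [Matrix.det_fin_two] at this
        rw [g00, g01, g10, g11] at hdet
        have m1 : Pi.mulSingle i (dg (q * Y 0 0)) ∈ H := by
          refine unip (dg (Y 0 0)) _ !![Y 0 0, -Y 0 0; Y 0 0, -Y 0 0] ?_ ?_ ?_
          · rw [Matrix.mul_fin_two]
            ext a b
            fin_cases a <;> fin_cases b <;> simp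
          · ext a b
            fin_cases a <;> fin_cases b <;> simp [dg, sub_eq_add_neg]
          · rw [nat_smul, ← hq]
            ext a b
            fin_cases a <;> fin_cases b <;> simp [dg, sub_eq_add_neg]
        have m2 : Pi.mulSingle i (up (q * (Y 0 1 + Y 0 0))) ∈ H := by
          refine unip (up (Y 0 1 + Y 0 0)) _ !![0, Y 0 1 + Y 0 0; 0, 0] ?_ ?_ ?_
          · rw [Matrix.mul_fin_two]
            ext a b
            fin_cases a <;> fin_cases b <;> simp
          · ext a b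
            fin_cases a <;> fin_cases b <;> simp [up]
          · rw [nat_smul, ← hq]
            ext a b
            fin_cases a <;> fin_cases b <;> simp [up]
        have m3 : Pi.mulSingle i (lo (q * (Y 1 0 - Y 0 0))) ∈ H := by
          refine unip (lo (Y 1 0 - Y 0 0)) _ !![0, 0; Y 1 0 - Y 0 0, 0] ?_ ?_ ?_
          · rw [Matrix.mul_fin_two]
            ext a b
            fin_cases a <;> fin_cases b <;> simp
          · ext a b
            fin_cases a <;> fin_cases b <;> simp [lo]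
          · rw [nat_smul, ← hq]
            ext a b
            fin_cases a <;> fin_cases b <;> simp [lo]
        have m4 := H.mul_mem (H.mul_mem m1 m2) m3
        rw [← Pi.mulSingle_mul, ← Pi.mulSingle_mul] at m4
        refine near _ m4 _ fun j => ?_
        by_cases hj : j = i
        · subst hj
          rw [Pi.mulSingle_eq_same, Pi.mulSingle_eq_same, dvd_entries]
          have hpq : ((p ^ (t + 1) : ℕ) : R) = (p : R) * q := by
            rw [hq, ← Nat.cast_mul, ← pow_succ']
          rw [hpq]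
          set P := dg (q * Y 0 0) * up (q * (Y 0 1 + Y 0 0)) * lo (q * (Y 1 0 - Y 0 0)) with hP
          have c00 : (dg (q * Y 0 0)) 0 0 = 1 + q * Y 0 0 := rfl
          have c01 : (dg (q * Y 0 0)) 0 1 = -(q * Y 0 0) := rfl
          have c10 : (dg (q * Y 0 0)) 1 0 = q * Y 0 0 := rfl
          have c11 : (dg (q * Y 0 0)) 1 1 = 1 - q * Y 0 0 := rfl
          have d00 : (up (q * (Y 0 1 + Y 0 0))) 0 0 = 1 := rfl
          have d01 : (up (q * (Y 0 1 + Y 0 0))) 0 1 = q * (Y 0 1 + Y 0 0) := rfl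
          have d10 : (up (q * (Y 0 1 + Y 0 0))) 1 0 = 0 := rfl
          have d11 : (up (q * (Y 0 1 + Y 0 0))) 1 1 = 1 := rfl
          have f00 : (lo (q * (Y 1 0 - Y 0 0))) 0 0 = 1 := rfl
          have f01 : (lo (q * (Y 1 0 - Y 0 0))) 0 1 = 0 := rfl
          have f10 : (lo (q * (Y 1 0 - Y 0 0))) 1 0 = q * (Y 1 0 - Y 0 0) := rfl
          have f11 : (lo (q * (Y 1 0 - Y 0 0))) 1 1 = 1 := rfl
          have w00 : (p : R) * q ∣ g 0 0 - P 0 0 := by
            refine ⟨r * (Y 0 0 * (Y 1 0 - Y 0 0) -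
              (1 + q * Y 0 0) * (Y 0 1 + Y 0 0) * (Y 1 0 - Y 0 0)), ?_⟩
            rw [hP, mul2, mul2, mul2, c00, c01, d00, d01, d10, d11, f00, f10, g00]
            linear_combination (q * (Y 0 0 * (Y 1 0 - Y 0 0) -
              (1 + q * Y 0 0) * (Y 0 1 + Y 0 0) * (Y 1 0 - Y 0 0))) * hr
          have w01 : (p : R) * q ∣ g 0 1 - P 0 1 := by
            refine ⟨-r * (Y 0 0 * (Y 0 1 + Y 0 0)), ?_⟩
            rw [hP, mul2, mul2, mul2, c00, c01, d00, d01, d10, d11, f01, f11, g01]
            linear_combination (-q * (Y 0 0 * (Y 0 1 + Y 0 0))) * hr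
          have w10 : (p : R) * q ∣ g 1 0 - P 1 0 := by
            refine ⟨r * (Y 0 0 * (Y 1 0 - Y 0 0) -
              q * Y 0 0 * (Y 0 1 + Y 0 0) * (Y 1 0 - Y 0 0)), ?_⟩
            rw [hP, mul2, mul2, mul2, c10, c11, d00, d01, d10, d11, f00, f10, g10]
            linear_combination (q * (Y 0 0 * (Y 1 0 - Y 0 0) -
              q * Y 0 0 * (Y 0 1 + Y 0 0) * (Y 1 0 - Y 0 0))) * hr
          have w11 : (p : R) * q ∣ g 1 1 - P 1 1 := by
            refine ⟨-r * (Y 0 0 * Y 1 1 - Y 0 1 * Y 1 0 + Y 0 0 * (Y 0 1 + Y 0 0)), ?_⟩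
            rw [hP, mul2, mul2, mul2, c10, c11, d00, d01, d10, d11, f01, f11, g11]
            linear_combination hdet - (q * (Y 0 0 * Y 1 1 - Y 0 1 * Y 1 0 +
              Y 0 0 * (Y 0 1 + Y 0 0))) * hr
          intro a b
          fin_cases a <;> fin_cases b
          · exact w00
          · exact w01
          · exact w10
          · exact w11
        · rw [Pi.mulSingle_eq_of_ne hj, Pi.mulSingle_eq_of_ne hj, sub_self]
          exact dvd_zero _
  refine all_of_single H fun i g => claim k le_rfl i g ?_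
  rw [Nat.sub_self, pow_zero, Nat.cast_one]
  exact one_dvd _

end ringR

end lift

end Pool.Agent.Q170.MT
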