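import Pool.Agent.Q170.MT.Adel

/-!
Stable subgroups, equivariant homomorphisms, and the index (helper file).
-/

set_option autoImplicit false

namespace Pool.Agent.Q170.MT

open Matrix

section stab
variable {Γ : Type} {ι : Type} [Fintype ι] [DecidableEq ι]
  {V : ι → Type} [∀ i, AddCommGroup (V i)]

/-- all tuples of matrices of determinant one are realised -/
def Rl (ρ : ∀ i, Γ → V i →+ V i) (n : ℕ) (P Q : ∀ i, V i) : Prop :=
  ∀ a b c d : ι → ℤ, (∀ i, (n : ℤ) ∣ a i * d i - b i * c i - 1) → ∃ σ : Γ, ∀ i,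
    ρ i σ (P i) = a i • P i + c i • Q i ∧ ρ i σ (Q i) = b i • P i + d i • Q i

variable {ρ : ∀ i, Γ → V i →+ V i} {n : ℕ} {P Q : ∀ i, V i}

omit [Fintype ι] in
/-- an elementary matrix at one place -/
theorem Rl.el (H : Rl ρ n P Q) (i : ι) (b c : ℤ) (hbc : b * c = 0) : ∃ σ : Γ,
    ρ i σ (P i) = P i + c • Q i ∧ ρ i σ (Q i) = b • P i + Q i ∧
    ∀ j, j ≠ i → ρ j σ (P j) = P j ∧ ρ j σ (Q j) = Q j := by
  obtain ⟨σ, hσ⟩ := H (fun _ => 1) (fun j => if j = i then b else 0)
    (fun j => if j = i then c else 0) (fun _ => 1) (by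
      intro j
      by_cases hj : j = i
      · simp only [hj, if_true, hbc]
        norm_num
      · simp only [hj, if_false]
        norm_num)
  refine ⟨σ, ?_, ?_, fun j hj => ?_⟩
  · have h := (hσ i).1
    simp only [if_true, one_zsmul] at h
    exact h
  · have h := (hσ i).2
    simp only [if_true, one_zsmul] at h
    exact h
  · have h := hσ j
    simp only [hj, if_false, one_zsmul, zero_zsmul, add_zero, zero_add] at h
    exact h

omit [Fintype ι] in
/-- equivariant homomorphisms between different places -/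
theorem hom_ne (HB : ∀ i, Bs n (P i) (Q i)) (H : Rl ρ n P Q) {i j : ι} (hij : i ≠ j)
    (φ : V i → V j) (hadd : ∀ v w, n • v = 0 → n • w = 0 → φ (v + w) = φ v + φ w)
    (hφ : ∀ v, n • v = 0 → n • φ v = 0)
    (heq : ∀ σ v, n • v = 0 → φ (ρ i σ v) = ρ j σ (φ v)) (v : V i) (hv : n • v = 0) : φ v = 0 := by
  have hP := (HB i).hP
  have hQ := (HB i).hQ
  have h0 : φ 0 = 0 := by
    have h1 := hadd 0 0 (smul_zero _) (smul_zero _)
    rw [add_zero] at h1
    exact left_eq_add.1 h1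
  have hz : ∀ (x : ℤ) (w : V i), n • w = 0 → φ w = 0 → φ (x • w) = 0 := by
    intro x w hw h1
    have hn : ∀ m : ℕ, n • (m • w) = 0 ∧ φ (m • w) = 0 := by
      intro m
      induction m with
      | zero => rw [zero_smul, smul_zero]; exact ⟨rfl, h0⟩
      | succ m ih =>
        rw [succ_nsmul, smul_add, ih.1, hw, add_zero, hadd _ _ ih.1 hw, ih.2, h1, add_zero]
        exact ⟨rfl, rfl⟩
    obtain ⟨m, rfl | rfl⟩ := x.eq_nat_or_neg
    · rw [natCast_zsmul]; exact (hn m).2
    · have h2 := hadd (m • w) (-(m • w)) (hn m).1 (by rw [smul_neg, (hn m).1, neg_zero])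
      rw [add_neg_cancel, h0, (hn m).2, zero_add] at h2
      rw [neg_smul, natCast_zsmul]
      exact h2.symm
  have triv : ∀ σ, ρ j σ (P j) = P j → ρ j σ (Q j) = Q j → ∀ w, n • w = 0 → ρ j σ w = w := by
    intro σ h1 h2 w hw
    obtain ⟨x, y, rfl⟩ := (HB j).span w hw
    rw [map_add, map_zsmul, map_zsmul, h1, h2]
  have hφP : φ (P i) = 0 := by
    obtain ⟨σ, -, h2, h3⟩ := H.el i 1 0 (mul_zero _)
    obtain ⟨h4, h5⟩ := h3 j (Ne.symm hij)
    have h6 := heq σ (Q i) hQ
    rw [h2, one_zsmul, hadd _ _ hP hQ, triv σ h4 h5 _ (hφ _ hQ)] at h6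
    exact add_eq_right.1 h6
  have hφQ : φ (Q i) = 0 := by
    obtain ⟨σ, h2, -, h3⟩ := H.el i 0 1 (zero_mul _)
    obtain ⟨h4, h5⟩ := h3 j (Ne.symm hij)
    have h6 := heq σ (P i) hP
    rw [h2, one_zsmul, hadd _ _ hP hQ, triv σ h4 h5 _ (hφ _ hP)] at h6
    exact add_eq_left.1 h6
  obtain ⟨x, y, rfl⟩ := (HB i).span v hv
  rw [hadd _ _ (by rw [smul_comm, hP, smul_zero]) (by rw [smul_comm, hQ, smul_zero]),
    hz x _ hP hφP, hz y _ hQ hφQ, add_zero]

omit [Fintype ι] in
/-- equivariant endomorphisms -/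
theorem hom_eq (HB : ∀ i, Bs n (P i) (Q i)) (H : Rl ρ n P Q) (i : ι)
    (φ : V i → V i) (hadd : ∀ v w, n • v = 0 → n • w = 0 → φ (v + w) = φ v + φ w)
    (hφ : ∀ v, n • v = 0 → n • φ v = 0)
    (heq : ∀ σ v, n • v = 0 → φ (ρ i σ v) = ρ i σ (φ v)) :
    ∃ m : ℤ, ∀ v, n • v = 0 → φ v = m • v := by
  have hP := (HB i).hP
  have hQ := (HB i).hQ
  have h0 : φ 0 = 0 := by
    have h1 := hadd 0 0 (smul_zero _) (smul_zero _)
    rw [add_zero] at h1
    exact left_eq_add.1 h1
  have hz : ∀ (x m : ℤ) (w : V i), n • w = 0 → φ w = m • w → φ (x • w) = m • (x • w) := by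
    intro x m w hw h1
    have hn : ∀ k : ℕ, n • (k • w) = 0 ∧ φ (k • w) = m • (k • w) := by
      intro k
      induction k with
      | zero => rw [zero_smul, smul_zero, smul_zero]; exact ⟨rfl, h0⟩
      | succ k ih =>
        rw [succ_nsmul, smul_add, ih.1, hw, add_zero, hadd _ _ ih.1 hw, ih.2, h1, smul_add]
        exact ⟨rfl, rfl⟩
    obtain ⟨k, rfl | rfl⟩ := x.eq_nat_or_neg
    · rw [natCast_zsmul]; exact (hn k).2
    · have h2 := hadd (k • w) (-(k • w)) (hn k).1 (by rw [smul_neg, (hn k).1, neg_zero])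
      rw [add_neg_cancel, h0, (hn k).2] at h2
      rw [neg_smul, natCast_zsmul, smul_neg]
      exact (neg_eq_of_add_eq_zero_right h2.symm).symm
  obtain ⟨a, c, hac⟩ := (HB i).span (φ (P i)) (hφ _ hP)
  obtain ⟨b, d, hbd⟩ := (HB i).span (φ (Q i)) (hφ _ hQ)
  -- the upper triangular matrix
  obtain ⟨σ, s1, s2, -⟩ := H.el i 1 0 (mul_zero _)
  rw [zero_zsmul, add_zero] at s1
  rw [one_zsmul] at s2
  obtain ⟨τ, t1, t2, -⟩ := H.el i 0 1 (zero_mul _)
  rw [one_zsmul] at t1
  rw [zero_zsmul, zero_add] at t2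
  have e1 := heq σ (Q i) hQ
  rw [s2, hadd _ _ hP hQ, hbd, map_add, map_zsmul, map_zsmul, s1, s2, smul_add] at e1
  have e2 : φ (P i) = d • P i := by
    have e3 : φ (P i) + (b • P i + d • Q i) = d • P i + (b • P i + d • Q i) := by
      rw [e1]; abel
    exact add_right_cancel e3
  have e4 := heq τ (Q i) hQ
  rw [t2, hbd, map_add, map_zsmul, map_zsmul, t1, t2, smul_add] at e4
  have e5 : b • Q i = 0 := by
    have e6 : b • P i + d • Q i + 0 = b • P i + d • Q i + b • Q i := by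
      rw [add_zero]
      conv_lhs => rw [e4]
      abel
    exact (add_left_cancel e6).symm
  have e7 : b • P i = 0 := by
    have h1 := (HB i).indep 0 b (by rw [zero_zsmul, zero_add, e5])
    obtain ⟨m, hm⟩ := h1.2
    rw [hm, mul_comm, mul_smul, natCast_zsmul, hP, smul_zero]
  have e8 : φ (Q i) = d • Q i := by rw [hbd, e7, zero_add]
  refine ⟨d, fun v hv => ?_⟩
  obtain ⟨x, y, rfl⟩ := (HB i).span v hv
  rw [hadd _ _ (by rw [smul_comm, hP, smul_zero]) (by rw [smul_comm, hQ, smul_zero]),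
    hz x d _ hP e2, hz y d _ hQ e8, smul_add]

/-- stable subgroups -/
theorem stable (hn : n ≠ 0) (HB : ∀ i, Bs n (P i) (Q i)) (H : Rl ρ n P Q)
    (W : AddSubgroup (∀ i, V i)) (hW : ∀ w ∈ W, n • w = 0)
    (hst : ∀ σ, ∀ w ∈ W, (fun i => ρ i σ (w i)) ∈ W) :
    ∃ d : ι → ℕ, (∀ i, d i ∣ n) ∧ ∀ w, w ∈ W ↔ ∀ i, d i • w i = 0 := by
  -- the coordinates of the elements of `W`
  have step : ∀ w ∈ W, ∀ i, ∀ x y : ℤ, w i = x • P i + y • Q i →
      Pi.single i (y • P i) ∈ W ∧ Pi.single i (x • Q i) ∈ W := by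
    intro w hw i x y hxy
    have triv : ∀ j σ, ρ j σ (P j) = P j → ρ j σ (Q j) = Q j → ρ j σ (w j) = w j := by
      intro j σ h1 h2
      have hwj : n • w j = 0 := congrFun (hW w hw) j
      obtain ⟨x, y, hxy⟩ := (HB j).span (w j) hwj
      rw [hxy, map_add, map_zsmul, map_zsmul, h1, h2]
    constructor
    · obtain ⟨σ, s1, s2, s3⟩ := H.el i 1 0 (mul_zero _)
      have h1 := W.sub_mem (hst σ w hw) hw
      have e : (fun j => ρ j σ (w j)) - w = Pi.single i (y • P i) := by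
        funext j
        rw [Pi.sub_apply]
        by_cases hj : j = i
        · subst hj
          rw [Pi.single_eq_same, hxy, map_add, map_zsmul, map_zsmul, s1, s2, zero_zsmul, add_zero,
            one_zsmul, smul_add]
          abel
        · rw [Pi.single_eq_of_ne hj, triv j σ (s3 j hj).1 (s3 j hj).2, sub_self]
      rwa [e] at h1
    · obtain ⟨σ, s1, s2, s3⟩ := H.el i 0 1 (zero_mul _)
      have h1 := W.sub_mem (hst σ w hw) hw
      have e : (fun j => ρ j σ (w j)) - w = Pi.single i (x • Q i) := by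
        funext j
        rw [Pi.sub_apply]
        by_cases hj : j = i
        · subst hj
          rw [Pi.single_eq_same, hxy, map_add, map_zsmul, map_zsmul, s1, s2, zero_zsmul, zero_add,
            one_zsmul, smul_add]
          abel
        · rw [Pi.single_eq_of_ne hj, triv j σ (s3 j hj).1 (s3 j hj).2, sub_self]
      rwa [e] at h1
  -- the ideals
  set J : ι → AddSubgroup ℤ := fun i =>
    { carrier := {x | Pi.single i (x • P i) ∈ W ∧ Pi.single i (x • Q i) ∈ W}
      add_mem' := by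
        rintro x y ⟨h1, h2⟩ ⟨h3, h4⟩
        constructor
        · show Pi.single i ((x + y) • P i) ∈ W
          rw [add_smul, Pi.single_add]; exact W.add_mem h1 h3
        · show Pi.single i ((x + y) • Q i) ∈ W
          rw [add_smul, Pi.single_add]; exact W.add_mem h2 h4
      zero_mem' := by
        constructor
        · show Pi.single i ((0 : ℤ) • P i) ∈ W
          rw [zero_smul, Pi.single_zero]; exact W.zero_mem
        · show Pi.single i ((0 : ℤ) • Q i) ∈ W
          rw [zero_smul, Pi.single_zero]; exact W.zero_mem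
      neg_mem' := by
        rintro x ⟨h1, h2⟩
        constructor
        · show Pi.single i ((-x) • P i) ∈ W
          rw [neg_smul, Pi.single_neg]; exact W.neg_mem h1
        · show Pi.single i ((-x) • Q i) ∈ W
          rw [neg_smul, Pi.single_neg]; exact W.neg_mem h2 } with hJ
  have hJm : ∀ i x, x ∈ J i ↔ Pi.single i (x • P i) ∈ W ∧ Pi.single i (x • Q i) ∈ W :=
    fun _ _ => Iff.rfl
  have coord : ∀ w ∈ W, ∀ i, ∀ x y : ℤ, w i = x • P i + y • Q i → x ∈ J i ∧ y ∈ J i := by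
    intro w hw i x y hxy
    obtain ⟨h1, h2⟩ := step w hw i x y hxy
    obtain ⟨-, h3⟩ := step _ h1 i y 0 (by rw [Pi.single_eq_same, zero_zsmul, add_zero])
    obtain ⟨h4, -⟩ := step _ h2 i 0 x (by rw [Pi.single_eq_same, zero_zsmul, zero_add])
    exact ⟨⟨h4, h2⟩, h1, h3⟩
  have hnJ : ∀ i, (n : ℤ) ∈ J i := by
    intro i
    rw [hJm, natCast_zsmul, natCast_zsmul, (HB i).hP, (HB i).hQ, Pi.single_zero]
    exact ⟨W.zero_mem, W.zero_mem⟩
  have hgen : ∀ i, ∃ e : ℕ, e ∣ n ∧ ∀ x : ℤ, x ∈ J i ↔ (e : ℤ) ∣ x := by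
    intro i
    obtain ⟨e, he⟩ := Int.subgroup_cyclic (J i)
    have h1 : ∀ x : ℤ, x ∈ J i ↔ ((e.natAbs : ℕ) : ℤ) ∣ x := by
      intro x
      rw [he, AddSubgroup.mem_closure_singleton, Int.natAbs_dvd]
      constructor
      · rintro ⟨m, rfl⟩
        exact ⟨m, by rw [smul_eq_mul, mul_comm]⟩
      · rintro ⟨m, rfl⟩
        exact ⟨m, by rw [smul_eq_mul, mul_comm]⟩
    exact ⟨e.natAbs, Int.natCast_dvd_natCast.1 ((h1 n).1 (hnJ i)), h1⟩
  choose e he he' using hgen
  choose d hd using he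
  have hd0 : ∀ i, d i ≠ 0 := by
    intro i h
    apply hn
    rw [hd i, h, mul_zero]
  refine ⟨d, fun i => ⟨e i, by rw [mul_comm]; exact hd i⟩, fun w => ⟨fun hw i => ?_, fun hw => ?_⟩⟩
  · have hwi : n • w i = 0 := congrFun (hW w hw) i
    obtain ⟨x, y, hxy⟩ := (HB i).span (w i) hwi
    obtain ⟨hx, hy⟩ := coord w hw i x y hxy
    obtain ⟨x', rfl⟩ := (he' i x).1 hx
    obtain ⟨y', rfl⟩ := (he' i y).1 hy
    have key : ∀ (z : ℤ) (R : V i), n • R = 0 → d i • (((e i : ℤ) * z) • R) = 0 := by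
      intro z R hR
      rw [← natCast_zsmul, ← mul_smul]
      have : (d i : ℤ) * ((e i : ℤ) * z) = z * (n : ℤ) := by
        have h1 : (n : ℤ) = (e i : ℤ) * d i := by exact_mod_cast hd i
        rw [h1]; ring
      rw [this, mul_smul, natCast_zsmul, hR, smul_zero]
    rw [hxy, smul_add, key x' _ (HB i).hP, key y' _ (HB i).hQ, add_zero]
  · have hsum : w = ∑ i, Pi.single i (w i) := (Finset.univ_sum_single w).symm
    rw [hsum]
    refine W.sum_mem fun i _ => ?_
    have hwi : n • w i = 0 := by rw [hd i, mul_smul, hw i, smul_zero]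
    obtain ⟨x, y, hxy⟩ := (HB i).span (w i) hwi
    have h1 := hw i
    rw [hxy, ← natCast_zsmul, smul_add, ← mul_smul, ← mul_smul] at h1
    obtain ⟨h2, h3⟩ := (HB i).indep _ _ h1
    have hdi : (d i : ℤ) ≠ 0 := by exact_mod_cast hd0 i
    have hne : (n : ℤ) = (d i : ℤ) * e i := by
      have h4 : (n : ℤ) = (e i : ℤ) * d i := by exact_mod_cast hd i
      rw [h4]; ring
    rw [hne] at h2 h3
    have hx : x ∈ J i := (he' i x).2 ((mul_dvd_mul_iff_left hdi).1 h2)
    have hy : y ∈ J i := (he' i y).2 ((mul_dvd_mul_iff_left hdi).1 h3)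
    rw [hxy, Pi.single_add]
    exact W.add_mem hx.1 hy.2

end stab

section index

/-- tuples of invertible matrices -/
abbrev GG (ι : Type) (n : ℕ) : Type := ι → GL (Fin 2) (ZMod n)

/-- equal determinants -/
def EqDet (ι : Type) (n : ℕ) : Subgroup (GG ι n) where
  carrier := {g | ∀ i j, (g i).det = (g j).det}
  mul_mem' := by
    intro a b ha hb i j
    show (a i * b i).det = (a j * b j).det
    rw [map_mul, map_mul, ha i j, hb i j]
  one_mem' := by
    intro i j
    rfl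
  inv_mem' := by
    intro a ha i j
    show ((a i)⁻¹).det = ((a j)⁻¹).det
    rw [map_inv, map_inv, ha i j]

/-- a subgroup containing all tuples of determinant a square -/
theorem index_two {ι : Type} {p : ℕ} (hp : p.Prime) (hp2 : p ≠ 2) (k : ℕ)
    (K : Subgroup (GG ι (p ^ k)))
    (hK : ∀ (u : (ZMod (p ^ k))ˣ) (g : GG ι (p ^ k)), (∀ i, (g i).det = u ^ 2) → g ∈ K) :
    K.relIndex (EqDet ι (p ^ k)) = 1 ∨ K.relIndex (EqDet ι (p ^ k)) = 2 := by
  haveI : NeZero (p ^ k) := ⟨pow_ne_zero _ hp.ne_zero⟩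
  have hcyc : IsCyclic (ZMod (p ^ k))ˣ := ZMod.isCyclic_units_of_prime_pow p hp hp2 k
  by_cases hι : Nonempty ι
  · obtain ⟨i₀⟩ := hι
    set δ : GG ι (p ^ k) →* (ZMod (p ^ k))ˣ :=
      (Matrix.GeneralLinearGroup.det).comp (Pi.evalMonoidHom _ i₀) with hδ
    set S : Subgroup (ZMod (p ^ k))ˣ := (powMonoidHom 2).range with hS
    have h1 : EqDet ι (p ^ k) ⊓ S.comap δ ≤ K := by
      rintro g ⟨hg1, ⟨u, hu⟩⟩
      refine hK u g fun i => ?_
      rw [hg1 i i₀]
      exact hu.symm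
    have h2 : K.relIndex (EqDet ι (p ^ k)) ∣
        (EqDet ι (p ^ k) ⊓ S.comap δ).relIndex (EqDet ι (p ^ k)) :=
      Subgroup.relIndex_dvd_of_le_left _ h1
    have h3 : (EqDet ι (p ^ k) ⊓ S.comap δ).relIndex (EqDet ι (p ^ k)) =
        (S.comap δ).relIndex (EqDet ι (p ^ k)) := by
      rw [inf_comm, Subgroup.inf_relIndex_right]
    have h4 : (S.comap δ).relIndex (EqDet ι (p ^ k)) = S.relIndex ((EqDet ι (p ^ k)).map δ) :=
      Subgroup.relIndex_comap _ _ _
    have h5 : S.relIndex ((EqDet ι (p ^ k)).map δ) ∣ S.index := Subgroup.relIndex_dvd_index_of_normal _ _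
    have h6 : S.index ∣ 2 := by
      rw [hS, IsCyclic.index_powMonoidHom_range]
      exact Nat.gcd_dvd_right _ _
    have h7 : K.relIndex (EqDet ι (p ^ k)) ∣ 2 := by
      rw [h3, h4] at h2
      exact h2.trans (h5.trans h6)
    exact (Nat.dvd_prime Nat.prime_two).1 h7
  · left
    haveI : IsEmpty ι := not_nonempty_iff.1 hι
    have : K = ⊤ := by
      rw [Subgroup.eq_top_iff']
      intro x
      rw [Subsingleton.elim x 1]
      exact K.one_mem
    rw [this]
    exact Subgroup.relIndex_top_left _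

end index

end Pool.Agent.Q170.MT
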